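import Pool.Agent.Lib.RIB.RDefs
import Pool.Agent.Lib.RibLI.F1

/-!
# DTop : the deterministic theorem for lists

(module of Lib/RIB, problem MP_cf50d6_gt)
The conditions (P1), (P2), (P3) of `RDefs` imply the condition `Gen` of `Lib/RibLI` (helper50), which uses the letters
`w[s]?`.
-/

set_option autoImplicit false

open scoped Classical

namespace Pool.Agent.RIB

open Pool.Agent.LIA

theorem getElem?_sub {n : ℕ} (w : List (Lt n)) (t k r : ℕ) :
    (sub w t k)[r]? = if r < k then w[t + r]? else none := by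
  unfold sub
  rw [List.getElem?_take, List.getElem?_drop]

theorem length_sub {n : ℕ} {w : List (Lt n)} {t k : ℕ} (h : t + k ≤ w.length) :
    (sub w t k).length = k := by
  unfold sub
  rw [List.length_take, List.length_drop]
  omega

theorem red_of_rdc {n : ℕ} {w : List (Lt n)} (h : RibLI.Rdc w) : FreeGroup.IsReduced w := by
  unfold FreeGroup.IsReduced
  rw [List.isChain_iff_getElem]
  intro s hs h1
  by_contra h2
  refine h s (w[s]) (w[s + 1]) (List.getElem?_eq_getElem _) (List.getElem?_eq_getElem _) ?_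
  unfold linv
  refine Prod.ext h1.symm ?_
  revert h2
  cases (w[s]).2 <;> cases (w[s + 1]).2 <;> simp

theorem rdc_of_red {n : ℕ} {w : List (Lt n)} (h : FreeGroup.IsReduced w) : RibLI.Rdc w := by
  intro s a b ha hb hab
  unfold FreeGroup.IsReduced at h
  rw [List.isChain_iff_getElem] at h
  obtain ⟨hs, rfl⟩ := List.getElem?_eq_some_iff.1 ha
  obtain ⟨hs', rfl⟩ := List.getElem?_eq_some_iff.1 hb
  have h1 := h s hs'
  rw [hab] at h1
  have h2 := h1 rfl
  revert h2
  unfold linv
  cases (w[s]).2 <;> simp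

theorem gen_of_P {n m : ℕ} {i j : Fin m → Fin n} {K L : ℕ} {W : Fin m → List (Lt n)}
    (hr : ∀ e, FreeGroup.IsReduced (W e)) (p1 : P1 K 0 L W) (p2 : P2 L W) (p3 : P3 i j W) :
    RibLI.Gen W i j K L := by
  refine ⟨fun e => rdc_of_red (hr e), ?_, ?_, ?_, ?_, ?_⟩
  · intro e l hl
    refine (p3 e).1 l ?_
    rw [Option.mem_def, List.head?_eq_getElem?]
    exact hl
  · intro e l hl
    refine (p3 e).2 l ?_
    rw [Option.mem_def, List.getLast?_eq_getElem?]
    exact hl
  · intro e u hu hu'
    obtain ⟨t, _, ht, h1⟩ := p1 e u (mem_RW.2 ⟨hu, red_of_rdc hu'⟩)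
    refine ⟨t, ht, fun r hr => ?_⟩
    rw [← h1, getElem?_sub, if_pos hr]
  · intro e e' t t' ht ht' h
    refine p2.1 e e' t t' ht ht' ?_
    apply List.ext_getElem?
    intro r
    rw [getElem?_sub, getElem?_sub]
    split_ifs with hr
    · exact h r hr
    · rfl
  · intro e e' t t' ht ht' h
    refine p2.2 e e' t t' ht ht' ?_
    apply List.ext_getElem?
    intro r
    have hlen : (FreeGroup.invRev (sub (W e') t' L)).length = L := by
      rw [FreeGroup.invRev_length, length_sub ht']
    by_cases hr : r < L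
    · rw [getElem?_sub, if_pos hr, h r hr]
      unfold FreeGroup.invRev
      rw [List.getElem?_reverse (by rw [List.length_map, length_sub ht']; exact hr),
        List.getElem?_map, List.length_map, length_sub ht', getElem?_sub, if_pos (by omega)]
      have h2 : t' + (L - 1 - r) = t' + L - 1 - r := by omega
      rw [h2]
      rfl
    · rw [getElem?_sub, if_neg hr, List.getElem?_eq_none (by omega)]

theorem detD {n m : ℕ} (hn : 2 ≤ n) (hm : m + 1 ≤ n) (i j : Fin m → Fin n) {K L : ℕ} (hK : 3 ≤ K)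
    (hL : 1 ≤ L) (h1 : 3 * L ≤ (2 * n - 1) ^ (K - 2)) (h2 : 4 * (K + L) ≤ (2 * n - 1) ^ (K - 1))
    (W : Fin m → List (Lt n)) (hr : ∀ e, FreeGroup.IsReduced (W e)) (p1 : P1 K 0 L W) (p2 : P2 L W)
    (p3 : P3 i j W) : LocallyIndicable (Grp i j fun e => FreeGroup.mk (W e)) := by
  have hc : Fintype.card (Fin n) = n := Fintype.card_fin n
  have hc' : Fintype.card (Fin m) = m := Fintype.card_fin m
  exact RibLI.li_gen W i j (gen_of_P hr p1 p2 p3) (by rw [hc]; exact hn) (by rw [hc, hc']; exact hm) hL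
    hK (by rw [hc]; exact h1) (by rw [hc]; exact h2)

end Pool.Agent.RIB
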