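import Pool.Agent.Lib.RIB.RExt

/-!
# RAvoid : reduced words which do not contain a given word of length K

(module of Lib/RIB, problem MP_cf50d6_gt)
`Av B w` : the blocks of length `K + 1` with which `w` begins do not begin with `u` (`B` blocks).
* `card_Av` : at most `(q^(K+1) - 1)^B * #(RW n c₀)` words of length `(K+1) B + c₀` have `Av B` (`card_ext_avoid`);
* the rest of the letters: `card_ext`.
-/

set_option autoImplicit false

open scoped Classical

namespace Pool.Agent.RIB

/-- the first `B` blocks of length `K + 1` of `w` do not begin with `u` -/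
def Av {n : ℕ} (K : ℕ) (u : List (Lt n)) : ℕ → List (Lt n) → Prop
  | 0, _ => True
  | B + 1, w => w.take K ≠ u ∧ Av K u B (w.drop (K + 1))

/-- a letter which can be put between two reduced words -/
theorem exists_letter {n : ℕ} (hn : 2 ≤ n) {u s : List (Lt n)} (hu : FreeGroup.IsReduced u)
    (hs : FreeGroup.IsReduced s) : ∃ z : Lt n, FreeGroup.IsReduced (u ++ [z] ++ s) := by
  classical
  obtain ⟨z, hz1, hz2⟩ : ∃ z : Lt n, (∀ x ∈ u.getLast?, x.1 = z.1 → x.2 = z.2) ∧
      ∀ y ∈ s.head?, z.1 = y.1 → z.2 = y.2 := by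
    -- the last letter of u
    rcases hx : u.getLast? with _ | x
    · rcases hy : s.head? with _ | y
      · exact ⟨(⟨0, by omega⟩, true), by simp, by simp⟩
      · exact ⟨y, by simp, by simp⟩
    · rcases hy : s.head? with _ | y
      · exact ⟨x, by simp, by simp⟩
      · by_cases h : x.1 = y.1
        · obtain ⟨i, hi⟩ : ∃ i : Fin n, i ≠ x.1 := by
            by_cases h0 : x.1 = ⟨0, by omega⟩
            · exact ⟨⟨1, by omega⟩, by rw [h0]; simp [Fin.ext_iff]⟩
            · exact ⟨⟨0, by omega⟩, fun h => h0 h.symm⟩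
          refine ⟨(i, true), ?_, ?_⟩
          · simp only [Option.mem_def, Option.some.injEq]
            rintro _ rfl h2
            exact absurd h2.symm hi
          · simp only [Option.mem_def, Option.some.injEq]
            rintro _ rfl h2
            exact absurd (h2.trans h.symm) hi
        · refine ⟨x, ?_, ?_⟩
          · simp only [Option.mem_def, Option.some.injEq]
            rintro _ rfl _
            rfl
          · simp only [Option.mem_def, Option.some.injEq]
            rintro _ rfl h2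
            exact absurd h2 h
  refine ⟨z, ?_⟩
  unfold FreeGroup.IsReduced at *
  rw [List.isChain_append, List.isChain_append]
  refine ⟨⟨hu, List.isChain_singleton z, ?_⟩, hs, ?_⟩
  · intro x hx y hy
    simp only [List.head?_cons, Option.mem_def, Option.some.injEq] at hy
    subst hy
    exact hz1 x hx
  · intro x hx y hy
    simp only [List.getLast?_append, List.getLast?_singleton, Option.some_or, Option.mem_def, Option.some.injEq] at hx
    subst hx
    exact hz2 y hy

theorem card_Av {n K c : ℕ} (hn : 2 ≤ n) (hc : 1 ≤ c) {u : List (Lt n)} (hu : u ∈ RW n K) (B : ℕ) :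
    ((RW n ((K + 1) * B + c)).filter fun w => Av K u B w).card ≤
      ((2 * n - 1) ^ (K + 1) - 1) ^ B * (RW n c).card := by
  induction B with
  | zero =>
    simp only [mul_zero, zero_add, pow_zero, one_mul]
    exact Finset.card_filter_le _ _
  | succ B ih =>
    have h1 := card_ext_avoid (n := n) (k := K + 1) (c := (K + 1) * B + c) (by omega)
      (fun w => Av K u B w) (fun w => w.take K = u) (by
        intro s hs _
        obtain ⟨hs1, hs2⟩ := mem_RW.1 hs
        obtain ⟨hu1, hu2⟩ := mem_RW.1 hu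
        obtain ⟨z, hz⟩ := exists_letter hn hu2 hs2
        refine ⟨u ++ [z], by simp [hu1], hz, ?_⟩
        rw [← hu1]
        simp [List.append_assoc])
    have h2 : (K + 1) * (B + 1) + c = K + 1 + ((K + 1) * B + c) := by ring
    rw [h2]
    calc ((RW n (K + 1 + ((K + 1) * B + c))).filter fun w => Av K u (B + 1) w).card
        = ((RW n (K + 1 + ((K + 1) * B + c))).filter fun w =>
            Av K u B (w.drop (K + 1)) ∧ ¬ w.take K = u).card := by
          congr 1
          refine Finset.filter_congr fun w _ => ?_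
          show (w.take K ≠ u ∧ Av K u B (w.drop (K + 1))) ↔ _
          exact and_comm
      _ ≤ ((2 * n - 1) ^ (K + 1) - 1) *
          ((RW n ((K + 1) * B + c)).filter fun w => Av K u B w).card := by convert h1
      _ ≤ ((2 * n - 1) ^ (K + 1) - 1) * (((2 * n - 1) ^ (K + 1) - 1) ^ B * (RW n c).card) :=
          Nat.mul_le_mul_left _ ih
      _ = _ := by rw [pow_succ' _ B, mul_assoc]

theorem av_drop {n l K a b : ℕ} {u w : List (Lt n)} (h : ∀ t, a ≤ t → t + K + b ≤ l → sub w t K ≠ u)
    (B r : ℕ) (hr : a ≤ r) (hl : r + ((K + 1) * B + (b + 1)) = l) : Av K u B (w.drop r) := by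
  induction B generalizing r with
  | zero => trivial
  | succ B ih =>
    have h1 : r + (K + 1) + ((K + 1) * B + (b + 1)) = l := by rw [← hl]; ring
    refine ⟨?_, ?_⟩
    · refine h r hr ?_
      have : 0 ≤ (K + 1) * B := Nat.zero_le _
      omega
    · rw [List.drop_drop]
      exact ih (r + (K + 1)) (by omega) h1

theorem card_avoid {n l K a b B : ℕ} (hn : 2 ≤ n) (hK : 1 ≤ K) {u : List (Lt n)} (hu : u ∈ RW n K)
    (hB : a + (b + 1) + (K + 1) * B ≤ l) :
    (((RW n l).filter fun w => ∀ t, a ≤ t → t + K + b ≤ l → sub w t K ≠ u).card : ℝ) ≤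
      (1 - 1 / ((2 * n - 1 : ℕ) : ℝ) ^ (K + 1)) ^ B * (RW n l).card := by
  obtain ⟨r, hr⟩ : ∃ r, r + ((K + 1) * B + (b + 1)) = l := ⟨l - ((K + 1) * B + (b + 1)), by omega⟩
  have hra : a ≤ r := by omega
  have hq0 : 1 ≤ 2 * n - 1 := by omega
  have hq : 1 ≤ (2 * n - 1) ^ (K + 1) := Nat.one_le_pow _ _ hq0
  -- the filter
  have h1 : ((RW n l).filter fun w => ∀ t, a ≤ t → t + K + b ≤ l → sub w t K ≠ u).card ≤
      ((RW n (r + ((K + 1) * B + (b + 1)))).filter fun w => Av K u B (w.drop r)).card := by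
    rw [hr]
    refine Finset.card_le_card fun w hw => ?_
    rw [Finset.mem_filter] at hw ⊢
    exact ⟨hw.1, av_drop hw.2 B r hra hr⟩
  have h2 := card_ext (n := n) (k := r) (c := (K + 1) * B + (b + 1)) (by omega) (fun w => Av K u B w)
  have h3 := card_Av (c := b + 1) hn (by omega) hu B
  -- the number of all words
  have h4 : (RW n l).card = (2 * n - 1) ^ r * (((2 * n - 1) ^ (K + 1)) ^ B * (RW n (b + 1)).card) := by
    have h5 := card_ext (n := n) (k := r) (c := (K + 1) * B + (b + 1)) (by omega) (fun _ => True)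
    have h6 := card_ext (n := n) (k := (K + 1) * B) (c := b + 1) (by omega) (fun _ => True)
    simp only [Finset.filter_true] at h5 h6
    rw [hr] at h5
    rw [h5, h6, pow_mul]
  have h5 : ((RW n l).filter fun w => ∀ t, a ≤ t → t + K + b ≤ l → sub w t K ≠ u).card ≤
      (2 * n - 1) ^ r * (((2 * n - 1) ^ (K + 1) - 1) ^ B * (RW n (b + 1)).card) :=
    h1.trans (h2.le.trans (Nat.mul_le_mul_left _ h3))
  have h6 : (((RW n l).filter fun w => ∀ t, a ≤ t → t + K + b ≤ l → sub w t K ≠ u).card : ℝ) ≤
      ((2 * n - 1 : ℕ) : ℝ) ^ r * (((((2 * n - 1 : ℕ) : ℝ)) ^ (K + 1) - 1) ^ B * (RW n (b + 1)).card) := by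
    have h7 : ((((2 * n - 1) ^ (K + 1) - 1 : ℕ) : ℕ) : ℝ) = ((2 * n - 1 : ℕ) : ℝ) ^ (K + 1) - 1 := by
      rw [Nat.cast_sub hq]
      push_cast
      ring
    rw [← h7]
    exact_mod_cast h5
  refine h6.trans (le_of_eq ?_)
  rw [h4]
  push_cast
  have hpos : (0 : ℝ) < ((2 * n - 1 : ℕ) : ℝ) := by exact_mod_cast hq0
  have h8 : ((2 * n - 1 : ℕ) : ℝ) ^ (K + 1) - 1 =
      (1 - 1 / ((2 * n - 1 : ℕ) : ℝ) ^ (K + 1)) * ((2 * n - 1 : ℕ) : ℝ) ^ (K + 1) := by
    field_simp
  rw [h8, mul_pow]
  ring

end Pool.Agent.RIB
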