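import Pool.Agent.Lib.RIB.RDefs

/-!
# RCard : the numbers of reduced words

(module of Lib/RIB, problem MP_cf50d6_gt)
-/

set_option autoImplicit false

open scoped Classical

namespace Pool.Agent.RIB

variable {n l : ℕ}

theorem RW_zero : RW n 0 = {[]} := by
  ext w
  rw [mem_RW, Finset.mem_singleton, List.length_eq_zero_iff]
  constructor
  · exact fun h => h.1
  · rintro rfl
    exact ⟨rfl, FreeGroup.IsReduced.nil⟩

private theorem rcard_tail {a : Lt n} {w : List (Lt n)} (h : FreeGroup.IsReduced (a :: w)) :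
    FreeGroup.IsReduced w := List.IsChain.tail h

theorem cons_mem_RW {a : Lt n} {w : List (Lt n)} :
    a :: w ∈ RW n (l + 1) ↔ w ∈ RW n l ∧ FreeGroup.IsReduced (a :: w) := by
  rw [mem_RW, mem_RW, List.length_cons, Nat.add_right_cancel_iff]
  constructor
  · rintro ⟨h1, h2⟩
    exact ⟨⟨h1, rcard_tail h2⟩, h2⟩
  · rintro ⟨⟨h1, _⟩, h2⟩
    exact ⟨h1, h2⟩

/-- the number of letters with which a nonempty reduced word can be extended to the left -/
theorem card_letters {w : List (Lt n)} (hw : w ≠ []) (hr : FreeGroup.IsReduced w) :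
    (Finset.univ.filter fun a : Lt n => FreeGroup.IsReduced (a :: w)).card = 2 * n - 1 := by
  obtain ⟨b, v, rfl⟩ := List.exists_cons_of_ne_nil hw
  have h1 : (Finset.univ.filter fun a : Lt n => FreeGroup.IsReduced (a :: b :: v)) =
      Finset.univ.erase (b.1, !b.2) := by
    ext a
    rw [Finset.mem_filter, FreeGroup.isReduced_cons_cons, Finset.mem_erase]
    constructor
    · rintro ⟨_, h2, _⟩
      refine ⟨?_, Finset.mem_univ _⟩
      rintro rfl
      have h3 := h2 rfl
      revert h3
      simp only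
      cases b.2 <;> simp
    · rintro ⟨h2, _⟩
      refine ⟨Finset.mem_univ _, ?_, hr⟩
      intro h3
      by_contra h4
      apply h2
      refine Prod.ext h3 ?_
      revert h4
      simp only
      cases a.2 <;> cases b.2 <;> simp
  rw [h1, Finset.card_erase_of_mem (Finset.mem_univ _), Finset.card_univ, Fintype.card_prod,
    Fintype.card_fin, Fintype.card_bool, mul_comm]

private theorem rcard_ne {w : List (Lt n)} (hw : w ∈ RW n (l + 1)) :
    ∃ a v, w = a :: v ∧ v ∈ RW n l ∧ FreeGroup.IsReduced (a :: v) := by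
  cases w with
  | nil =>
    have := (mem_RW.1 hw).1
    simp at this
  | cons a v => exact ⟨a, v, rfl, cons_mem_RW.1 hw⟩

theorem card_cons_le (P Q : List (Lt n) → Prop) (c : ℕ)
    (hPQ : ∀ a w, a :: w ∈ RW n (l + 1) → P (a :: w) → Q w)
    (hc : ∀ w ∈ RW n l, Q w →
      (Finset.univ.filter fun a : Lt n => FreeGroup.IsReduced (a :: w) ∧ P (a :: w)).card ≤ c) :
    ((RW n (l + 1)).filter P).card ≤ c * ((RW n l).filter Q).card := by
  refine Finset.card_le_mul_card_image_of_maps_to (f := List.tail)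
    (t := (RW n l).filter Q) ?_ c ?_
  · intro w hw
    obtain ⟨hw1, hw2⟩ := Finset.mem_filter.1 hw
    obtain ⟨a, v, rfl, hv, _⟩ := rcard_ne hw1
    exact Finset.mem_filter.2 ⟨hv, hPQ a v hw1 hw2⟩
  · intro v hv
    obtain ⟨hv1, hv2⟩ := Finset.mem_filter.1 hv
    refine le_trans ?_ (hc v hv1 hv2)
    refine le_trans (Finset.card_le_card ?_) (Finset.card_image_le (f := fun a : Lt n => a :: v))
    intro w hw
    obtain ⟨hw1, hw2⟩ := Finset.mem_filter.1 hw
    obtain ⟨hw3, hw4⟩ := Finset.mem_filter.1 hw1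
    obtain ⟨a, u, rfl, hu, hr⟩ := rcard_ne hw3
    obtain rfl : u = v := hw2
    exact Finset.mem_image.2 ⟨a, Finset.mem_filter.2 ⟨Finset.mem_univ _, hr, hw4⟩, rfl⟩

/-- the words `a :: w` for `w` in `RW n l` -/
private theorem rcard_sum :
    (RW n (l + 1)).card =
      ∑ w ∈ RW n l, (Finset.univ.filter fun a : Lt n => FreeGroup.IsReduced (a :: w)).card := by
  rw [Finset.card_eq_sum_card_fiberwise (f := List.tail) (t := RW n l)]
  · refine Finset.sum_congr rfl fun v hv => ?_
    refine (Finset.card_bij (fun (a : Lt n) _ => a :: v) ?_ ?_ ?_).symm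
    · intro a ha
      exact Finset.mem_filter.2 ⟨cons_mem_RW.2 ⟨hv, (Finset.mem_filter.1 ha).2⟩, rfl⟩
    · intro a _ b _ h
      exact (List.cons.inj h).1
    · intro w hw
      obtain ⟨hw1, hw2⟩ := Finset.mem_filter.1 hw
      obtain ⟨a, u, rfl, hu, hr⟩ := rcard_ne hw1
      obtain rfl : u = v := hw2
      exact ⟨a, Finset.mem_filter.2 ⟨Finset.mem_univ _, hr⟩, rfl⟩
  · intro w hw
    obtain ⟨a, v, rfl, hv, _⟩ := rcard_ne (Finset.mem_coe.1 hw)
    exact Finset.mem_coe.2 hv

theorem card_RW_one : (RW n 1).card = 2 * n := by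
  rw [rcard_sum, RW_zero, Finset.sum_singleton, Finset.filter_true_of_mem, Finset.card_univ,
    Fintype.card_prod, Fintype.card_fin, Fintype.card_bool, mul_comm]
  intro a _
  exact FreeGroup.IsReduced.singleton

theorem card_RW_succ (hl : 1 ≤ l) : (RW n (l + 1)).card = (2 * n - 1) * (RW n l).card := by
  rw [rcard_sum, Finset.sum_congr rfl (g := fun _ => 2 * n - 1), Finset.sum_const, smul_eq_mul,
    mul_comm]
  intro w hw
  obtain ⟨h1, h2⟩ := mem_RW.1 hw
  refine card_letters ?_ h2
  rintro rfl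
  simp at h1
  omega

theorem card_RW (hl : 1 ≤ l) : (RW n l).card = 2 * n * (2 * n - 1) ^ (l - 1) := by
  induction l, hl using Nat.le_induction with
  | base => rw [card_RW_one]; simp
  | succ l hl ih =>
    rw [card_RW_succ hl, ih]
    obtain ⟨k, rfl⟩ : ∃ k, l = k + 1 := ⟨l - 1, by omega⟩
    rw [Nat.add_sub_cancel, Nat.add_sub_cancel, pow_succ]
    ring

/-- also for `l = 0` (if `1 ≤ n`) -/
theorem le_card_RW_succ : (2 * n - 1) * (RW n l).card ≤ (RW n (l + 1)).card := by
  rcases Nat.eq_zero_or_pos l with rfl | hl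
  · rw [RW_zero, Finset.card_singleton, mul_one, zero_add, card_RW_one]
    omega
  · rw [card_RW_succ hl]

theorem card_RW_pos (hn : 1 ≤ n) : 0 < (RW n l).card := by
  rcases Nat.eq_zero_or_pos l with rfl | hl
  · rw [RW_zero, Finset.card_singleton]
    exact one_pos
  · rw [card_RW hl]
    have h1 : 0 < 2 * n - 1 := by omega
    positivity

end Pool.Agent.RIB
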