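import Pool.Agent.Lib.RIB.RDefs

/-!
# RCut : stripping powers at the two ends, the words

(module of Lib/RIB, problem MP_cf50d6_gt)
`exists_cut` : a reduced word `w` is `A ++ v ++ B`, `A` = power of `x` (`w.takeWhile`), `B` = power of `y` (`List.rdropWhile`, `List.rtakeWhile` of `w.dropWhile`); the head of `v` (if `v` is not empty) is the head of `w.dropWhile`.
A reduced word with all letters of the generator `x` is `List.replicate a (x, s)`.
`cut_P` : if `W e = A e ++ W' e ++ B e` with these powers and `P2 L W` then `(A e).length ≤ L`, `(B e).length ≤ L` (otherwise the word of length `L` at the positions `0`, `1` of `A` are equal), `P1 K L (2 L) W` gives `P1 K 0 L W'`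
(`sub (W' e) (t - (A e).length) K = sub (W e) t K` if `(A e).length ≤ t` and `t + K ≤ (A e).length + (W' e).length`), and `P2 L W'`.
-/

set_option autoImplicit false

open scoped Classical

namespace Pool.Agent.RIB

private theorem all_eq {n : ℕ} (x : Fin n) : ∀ (A : List (Lt n)), FreeGroup.IsReduced A →
    (∀ l ∈ A, l.1 = x) → ∃ s, A = List.replicate A.length (x, s)
  | [], _, _ => ⟨true, rfl⟩
  | [l], _, h => ⟨l.2, by
      have : l.1 = x := h l (by simp)
      simp [← this]⟩
  | l :: m :: A, hA, h => by
      have hA' : FreeGroup.IsReduced (m :: A) := by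
        unfold FreeGroup.IsReduced at hA ⊢
        exact (List.isChain_cons_cons.1 hA).2
      obtain ⟨s, hs⟩ := all_eq x (m :: A) hA' (fun l' hl' => h l' (List.mem_cons_of_mem _ hl'))
      refine ⟨s, ?_⟩
      have hlm : l.1 = m.1 → l.2 = m.2 := by
        unfold FreeGroup.IsReduced at hA
        exact (List.isChain_cons_cons.1 hA).1
      have hl : l.1 = x := h l (by simp)
      have hm : m.1 = x := h m (by simp)
      have hms : m = (x, s) := by
        have : m ∈ List.replicate (m :: A).length (x, s) := by
          rw [← hs]; simp
        exact List.eq_of_mem_replicate this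
      have hl2 : l = (x, s) := by
        have h2 := hlm (hl.trans hm.symm)
        rw [hms] at h2
        exact Prod.ext hl h2
      have hlen : (l :: m :: A).length = (m :: A).length + 1 := rfl
      rw [hlen, List.replicate_succ, ← hs, hl2]

private theorem red_append {n : ℕ} {u v : List (Lt n)} (h : FreeGroup.IsReduced (u ++ v)) :
    FreeGroup.IsReduced u ∧ FreeGroup.IsReduced v := by
  unfold FreeGroup.IsReduced at h ⊢
  have h1 := List.isChain_append.1 h
  exact ⟨h1.1, h1.2.1⟩

theorem exists_cut {n : ℕ} (x y : Fin n) {w : List (Lt n)} (hw : FreeGroup.IsReduced w) :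
    ∃ (a b : ℕ) (s s' : Bool) (v : List (Lt n)),
      w = List.replicate a (x, s) ++ v ++ List.replicate b (y, s') ∧ FreeGroup.IsReduced v ∧
        (∀ l ∈ v.head?, l.1 ≠ x) ∧ ∀ l ∈ v.getLast?, l.1 ≠ y := by
  classical
  set A := w.takeWhile (fun l => decide (l.1 = x)) with hA
  set R := w.dropWhile (fun l => decide (l.1 = x)) with hR
  have hAR : A ++ R = w := List.takeWhile_append_dropWhile
  set v := R.rdropWhile (fun l => decide (l.1 = y)) with hv
  set B := R.rtakeWhile (fun l => decide (l.1 = y)) with hB
  have hvB : v ++ B = R := List.rdropWhile_append_rtakeWhile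
  have hw1 : FreeGroup.IsReduced (A ++ R) := by rw [hAR]; exact hw
  obtain ⟨hAred, hRred⟩ := red_append hw1
  have hw2 : FreeGroup.IsReduced (v ++ B) := by rw [hvB]; exact hRred
  obtain ⟨hvred, hBred⟩ := red_append hw2
  obtain ⟨s, hs⟩ := all_eq x A hAred (by
    intro l hl
    have := List.mem_takeWhile_imp hl
    simpa using this)
  obtain ⟨s', hs'⟩ := all_eq y B hBred (by
    intro l hl
    have := List.mem_rtakeWhile_imp hl
    simpa using this)
  refine ⟨A.length, B.length, s, s', v, ?_, hvred, ?_, ?_⟩
  · rw [← hs, ← hs', List.append_assoc, hvB, hAR]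
  · intro l hl
    -- the head of v is the head of R
    have hne : v ≠ [] := by
      intro h0
      rw [h0] at hl
      simp at hl
    have hl2 : l ∈ R.head? := by
      rw [← hvB]
      rw [List.head?_append_of_ne_nil _ hne]
      exact hl
    have h3 := List.head?_dropWhile_not (fun l : Lt n => decide (l.1 = x)) w
    rw [← hR] at h3
    rw [Option.mem_def] at hl2
    rw [hl2] at h3
    simpa using h3
  · intro l hl
    have hne : v ≠ [] := by
      intro h0
      rw [h0] at hl
      simp at hl
    have h4 := List.rdropWhile_last_not (fun l : Lt n => decide (l.1 = y)) R hne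
    rw [Option.mem_def, List.getLast?_eq_getLast_of_ne_nil hne] at hl
    have hl' := Option.some.inj hl
    rw [← hl']
    simpa using h4

private theorem sub_mid {n : ℕ} (A v B : List (Lt n)) (t k : ℕ) (h : t + k ≤ v.length) :
    sub (A ++ v ++ B) (A.length + t) k = sub v t k := by
  unfold sub
  rw [List.append_assoc, ← List.drop_drop, List.drop_left, List.drop_append_of_le_length (by omega),
    List.take_append_of_le_length (by rw [List.length_drop]; omega)]

private theorem sub_rep {n : ℕ} (c : Lt n) (N t k : ℕ) (h : t + k ≤ N) :
    sub (List.replicate N c) t k = List.replicate k c := by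
  unfold sub
  rw [List.drop_replicate, List.take_replicate]
  congr 1
  omega

theorem cut_P {n m K L : ℕ} (hL : 1 ≤ L) (i j : Fin m → Fin n) (W W' : Fin m → List (Lt n))
    (a b : Fin m → ℕ) (s s' : Fin m → Bool)
    (h : ∀ e, W e = List.replicate (a e) (i e, s e) ++ W' e ++ List.replicate (b e) (j e, s' e))
    (h1 : P1 K L (2 * L) W) (h2 : P2 L W) : P1 K 0 L W' ∧ P2 L W' := by
  have hlen : ∀ e, (W e).length = a e + (W' e).length + b e := by
    intro e
    rw [h e]
    simp [add_assoc]
  have hsub : ∀ e t k, t + k ≤ (W' e).length → sub (W e) (a e + t) k = sub (W' e) t k := by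
    intro e t k ht
    rw [h e]
    have := sub_mid (List.replicate (a e) (i e, s e)) (W' e) (List.replicate (b e) (j e, s' e)) t k ht
    rw [List.length_replicate] at this
    exact this
  have ha : ∀ e, a e ≤ L := by
    intro e
    by_contra hcon
    push Not at hcon
    have key : ∀ t, t ≤ 1 → sub (W e) t L = List.replicate L (i e, s e) := by
      intro t ht
      rw [h e, List.append_assoc]
      have := sub_mid [] (List.replicate (a e) (i e, s e)) (W' e ++ List.replicate (b e) (j e, s' e))
        t L (by rw [List.length_replicate]; omega)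
      simp only [List.nil_append, List.length_nil, Nat.zero_add] at this
      rw [this]
      exact sub_rep _ _ _ _ (by omega)
    have := (h2.1 e e 0 1 (by rw [hlen]; omega) (by rw [hlen]; omega)
      ((key 0 (by omega)).trans (key 1 (by omega)).symm)).2
    omega
  have hb : ∀ e, b e ≤ L := by
    intro e
    by_contra hcon
    push Not at hcon
    have key : ∀ t, t ≤ 1 → sub (W e) (a e + (W' e).length + t) L = List.replicate L (j e, s' e) := by
      intro t ht
      rw [h e]
      have := sub_mid (List.replicate (a e) (i e, s e) ++ W' e) (List.replicate (b e) (j e, s' e)) []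
        t L (by rw [List.length_replicate]; omega)
      simp only [List.append_nil, List.length_append, List.length_replicate] at this
      rw [this]
      exact sub_rep _ _ _ _ (by omega)
    have := (h2.1 e e _ _ (by rw [hlen]; omega) (by rw [hlen]; omega)
      ((key 0 (by omega)).trans (key 1 (by omega)).symm)).2
    omega
  refine ⟨?_, ?_, ?_⟩
  · intro e u hu
    obtain ⟨t, ht1, ht2, ht3⟩ := h1 e u hu
    have hae := ha e
    have hbe := hb e
    have hl := hlen e
    refine ⟨t - a e, Nat.zero_le _, by omega, ?_⟩
    rw [← hsub e (t - a e) K (by omega)]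
    rw [← ht3]
    congr 1
    omega
  · intro e e' t t' ht ht' heq
    have hl := hlen e
    have hl' := hlen e'
    rw [← hsub e t L ht, ← hsub e' t' L ht'] at heq
    obtain ⟨hee, htt⟩ := h2.1 e e' _ _ (by omega) (by omega) heq
    subst hee
    exact ⟨rfl, by omega⟩
  · intro e e' t t' ht ht' heq
    have hl := hlen e
    have hl' := hlen e'
    rw [← hsub e t L ht, ← hsub e' t' L ht'] at heq
    exact h2.2 e e' _ _ (by omega) (by omega) heq

end Pool.Agent.RIB
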