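import Mathlib

/-!
# RDefs : words, the conditions (P1), (P2), (P3), the group

(helper74, helper50, problem MP_cf50d6_gt; paper /team-store/MP_cf50d6_gt_rib50.md)
-/

set_option autoImplicit false

open scoped Classical

namespace Pool.Agent.RIB

/-- letters : `(x, true)` is the generator `x`, `(x, false)` its inverse -/
abbrev Lt (n : ℕ) : Type := Fin n × Bool

/-- the subword of length `k` which begins at the position `t` (shorter if `w` ends before) -/
def sub {n : ℕ} (w : List (Lt n)) (t k : ℕ) : List (Lt n) := (w.drop t).take k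

/-- the reduced words of length `l` -/
noncomputable def RW (n l : ℕ) : Finset (List (Lt n)) :=
  ((List.finite_length_eq (Lt n) l).subset
    (fun w (hw : w ∈ {w : List (Lt n) | w.length = l ∧ FreeGroup.IsReduced w}) => hw.1)).toFinset

theorem mem_RW {n l : ℕ} {w : List (Lt n)} :
    w ∈ RW n l ↔ w.length = l ∧ FreeGroup.IsReduced w := by
  simp [RW]

/-- the group `⟨x_0, ..., x_(n-1) | x_(i e) W_e = W_e x_(j e), e⟩` -/
abbrev Grp {n m : ℕ} (i j : Fin m → Fin n) (W : Fin m → FreeGroup (Fin n)) : Type :=
  PresentedGroup (Set.range fun e : Fin m =>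
    FreeGroup.of (i e) * W e * (FreeGroup.of (j e))⁻¹ * (W e)⁻¹)

/-- (P1) with distance `a` from the beginning and `b` from the end: every reduced word of length `K` occurs in every `W e` -/
def P1 {n m : ℕ} (K a b : ℕ) (W : Fin m → List (Lt n)) : Prop :=
  ∀ e, ∀ u ∈ RW n K, ∃ t, a ≤ t ∧ t + K + b ≤ (W e).length ∧ sub (W e) t K = u

/-- (P2): no word of length `L` occurs at two places, and no word of length `L` and its inverse occur -/
def P2 {n m : ℕ} (L : ℕ) (W : Fin m → List (Lt n)) : Prop :=
  (∀ e e' t t', t + L ≤ (W e).length → t' + L ≤ (W e').length →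
    sub (W e) t L = sub (W e') t' L → e = e' ∧ t = t') ∧
  ∀ e e' t t', t + L ≤ (W e).length → t' + L ≤ (W e').length →
    sub (W e) t L ≠ FreeGroup.invRev (sub (W e') t' L)

/-- (P3): `W e` does not begin with a letter of the generator `i e` and does not end with a letter of the generator `j e` -/
def P3 {n m : ℕ} (i j : Fin m → Fin n) (W : Fin m → List (Lt n)) : Prop :=
  ∀ e, (∀ l ∈ (W e).head?, l.1 ≠ i e) ∧ ∀ l ∈ (W e).getLast?, l.1 ≠ j e

end Pool.Agent.RIB
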