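import Pool.Agent.Lib.RIB.RCard

/-!
# RDet : words in which some letters are determined by the later letters

(module of Lib/RIB, problem MP_cf50d6_gt)
`card_ok` : let `X l` be the number of words of length `l` with `Ok c L f`, `R l = (RW n l).card`. By `card_cons_le` (with `P = Q = Ok c L f`): `X (l + 1) ≤ X l` if `c ≤ l < c + L` (the
first letter of `a :: w` is `f w`), `X (l + 1) ≤ (2 n - 1) X l` if `1 ≤ l` and `l ∉ [c, c + L)`, `X 1 ≤ R 1`. So `X l * q ^ (number of elements of [c, c + L) below l) ≤ R l` by induction
(`le_card_RW_succ`).
-/

set_option autoImplicit false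

open scoped Classical

namespace Pool.Agent.RIB

variable {n l : ℕ}

/-- the letters of `w` which are followed by at least `c` and less than `c + L` letters are determined by `f` from the word of the
later letters -/
def Ok (c L : ℕ) (f : List (Lt n) → Lt n) (w : List (Lt n)) : Prop :=
  ∀ p a s, w = p ++ a :: s → c ≤ s.length → s.length < c + L → a = f s

private theorem rdet_tail {c L : ℕ} {f : List (Lt n) → Lt n} {a : Lt n} {w : List (Lt n)}
    (h : Ok c L f (a :: w)) : Ok c L f w := by
  intro p b s hw h1 h2
  exact h (a :: p) b s (by rw [hw]; rfl) h1 h2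

private theorem rdet_ind {c L : ℕ} (f : List (Lt n) → Lt n) (j : ℕ) :
    ((RW n j).filter (Ok c L f)).card * (2 * n - 1) ^ (min (j - c) L) ≤ (RW n j).card := by
  induction j with
  | zero =>
    have h1 : min (0 - c) L = 0 := by omega
    rw [h1, pow_zero, mul_one]
    exact Finset.card_filter_le _ _
  | succ j ih =>
    by_cases hj : c ≤ j ∧ j < c + L
    · have h1 : min (j + 1 - c) L = min (j - c) L + 1 := by omega
      have h2 : ((RW n (j + 1)).filter (Ok c L f)).card ≤ 1 * ((RW n j).filter (Ok c L f)).card := by
        refine card_cons_le (Ok c L f) (Ok c L f) 1 (fun a w _ h => rdet_tail h) ?_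
        intro w hw _
        have h3 : (Finset.univ.filter fun a : Lt n =>
            FreeGroup.IsReduced (a :: w) ∧ Ok c L f (a :: w)) ⊆ {f w} := by
          intro a ha
          rw [Finset.mem_filter] at ha
          rw [Finset.mem_singleton]
          have h4 : w.length = j := (mem_RW.1 hw).1
          exact ha.2.2 [] a w rfl (by rw [h4]; exact hj.1) (by rw [h4]; exact hj.2)
        calc _ ≤ ({f w} : Finset (Lt n)).card := Finset.card_le_card h3
          _ = 1 := Finset.card_singleton _
      rw [one_mul] at h2
      calc ((RW n (j + 1)).filter (Ok c L f)).card * (2 * n - 1) ^ (min (j + 1 - c) L)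
          ≤ ((RW n j).filter (Ok c L f)).card * (2 * n - 1) ^ (min (j - c) L + 1) := by
            rw [h1]
            exact Nat.mul_le_mul_right _ h2
        _ = (2 * n - 1) * (((RW n j).filter (Ok c L f)).card * (2 * n - 1) ^ (min (j - c) L)) := by
            rw [pow_succ]
            ring
        _ ≤ (2 * n - 1) * (RW n j).card := Nat.mul_le_mul_left _ ih
        _ ≤ (RW n (j + 1)).card := le_card_RW_succ
    · have h1 : min (j + 1 - c) L = min (j - c) L := by omega
      rcases Nat.eq_zero_or_pos j with rfl | hj1
      · have h2 : min (0 + 1 - c) L = 0 := by omega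
        rw [h2, pow_zero, mul_one]
        exact Finset.card_filter_le _ _
      · have h2 : ((RW n (j + 1)).filter (Ok c L f)).card ≤
            (2 * n - 1) * ((RW n j).filter (Ok c L f)).card := by
          refine card_cons_le (Ok c L f) (Ok c L f) (2 * n - 1) (fun a w _ h => rdet_tail h) ?_
          intro w hw _
          obtain ⟨h4, h5⟩ := mem_RW.1 hw
          have h6 : w ≠ [] := by
            rintro rfl
            rw [List.length_nil] at h4
            omega
          calc _ ≤ (Finset.univ.filter fun a : Lt n => FreeGroup.IsReduced (a :: w)).card := by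
                refine Finset.card_le_card ?_
                intro a ha
                rw [Finset.mem_filter] at ha ⊢
                exact ⟨ha.1, ha.2.1⟩
            _ = 2 * n - 1 := card_letters h6 h5
        calc ((RW n (j + 1)).filter (Ok c L f)).card * (2 * n - 1) ^ (min (j + 1 - c) L)
            ≤ (2 * n - 1) * ((RW n j).filter (Ok c L f)).card * (2 * n - 1) ^ (min (j - c) L) := by
              rw [h1]
              exact Nat.mul_le_mul_right _ h2
          _ = (2 * n - 1) * (((RW n j).filter (Ok c L f)).card * (2 * n - 1) ^ (min (j - c) L)) := by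
              ring
          _ ≤ (2 * n - 1) * (RW n j).card := Nat.mul_le_mul_left _ ih
          _ ≤ (RW n (j + 1)).card := le_card_RW_succ

theorem card_ok {c L : ℕ} (hn : 1 ≤ n) (h : c + L ≤ l) (f : List (Lt n) → Lt n) :
    ((RW n l).filter (Ok c L f)).card * (2 * n - 1) ^ L ≤ (RW n l).card := by
  have h1 := rdet_ind (n := n) (c := c) (L := L) f l
  have h2 : min (l - c) L = L := by omega
  rw [h2] at h1
  exact h1

end Pool.Agent.RIB
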