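import Pool.Agent.Lib.RIB.RCard

/-!
# RExt : extensions of reduced words to the left

(module of Lib/RIB, problem MP_cf50d6_gt)
For a nonempty reduced word `s` there are `(2 n - 1) ^ k` words `p` of length `k` with `p ++ s` reduced (induction on `k`, `card_letters`);
`w ∈ RW n (k + c)` is `w.take k ++ w.drop k`, `w.drop k ∈ RW n c`. `card_ext_avoid` : in every fibre at least one word has the property `R`.
-/

set_option autoImplicit false

open scoped Classical

namespace Pool.Agent.RIB

variable {n k c : ℕ}

private theorem rext_drop_mem {w : List (Lt n)} (hw : w ∈ RW n (k + c)) : w.drop k ∈ RW n c := by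
  rw [mem_RW] at hw ⊢
  refine ⟨by rw [List.length_drop, hw.1]; omega, ?_⟩
  exact List.IsChain.drop hw.2 k

/-- the number of reduced words of length `k + |s|` which end with the nonempty reduced word `s` -/
theorem card_fiber {s : List (Lt n)} (hc : 1 ≤ c) (hs : s ∈ RW n c) :
    ((RW n (k + c)).filter fun w => w.drop k = s).card = (2 * n - 1) ^ k := by
  induction k with
  | zero =>
    have : ((RW n (0 + c)).filter fun w => w.drop 0 = s) = {s} := by
      ext w
      simp only [Finset.mem_filter, List.drop_zero, Finset.mem_singleton, Nat.zero_add]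
      constructor
      · exact fun h => h.2
      · rintro rfl
        exact ⟨hs, rfl⟩
    rw [this]
    simp
  | succ k ih =>
    have hkc : k + 1 + c = (k + c) + 1 := by omega
    rw [hkc]
    set A := (RW n (k + c)).filter fun w => w.drop k = s with hA
    have hmaps : ∀ w ∈ ((RW n (k + c + 1)).filter fun w => w.drop (k + 1) = s), w.tail ∈ A := by
      intro w hw
      rw [Finset.mem_filter] at hw
      obtain ⟨hw1, hw2⟩ := hw
      cases w with
      | nil =>
        rw [mem_RW] at hw1
        simp at hw1
      | cons a w =>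
        rw [cons_mem_RW] at hw1
        rw [hA, Finset.mem_filter]
        exact ⟨hw1.1, by simpa using hw2⟩
    rw [Finset.card_eq_sum_card_fiberwise hmaps]
    have hfib : ∀ w ∈ A, (((RW n (k + c + 1)).filter fun w => w.drop (k + 1) = s).filter
        fun v => v.tail = w).card = 2 * n - 1 := by
      intro w hw
      rw [hA, Finset.mem_filter] at hw
      have hwr := (mem_RW.1 hw.1).2
      have hwne : w ≠ [] := by
        rintro rfl
        have := (mem_RW.1 hw.1).1
        simp at this
        omega
      rw [← card_letters hwne hwr]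
      symm
      apply Finset.card_bij (fun a _ => a :: w)
      · intro a ha
        rw [Finset.mem_filter] at ha
        rw [Finset.mem_filter, Finset.mem_filter]
        exact ⟨⟨cons_mem_RW.2 ⟨hw.1, ha.2⟩, by simpa using hw.2⟩, rfl⟩
      · intro a _ b _ h
        exact (List.cons.inj h).1
      · intro v hv
        rw [Finset.mem_filter, Finset.mem_filter] at hv
        obtain ⟨⟨hv1, hv2⟩, hv3⟩ := hv
        cases v with
        | nil =>
          rw [mem_RW] at hv1
          simp at hv1
        | cons a v =>
          simp only [List.tail_cons] at hv3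
          subst hv3
          exact ⟨a, Finset.mem_filter.2 ⟨Finset.mem_univ _, (cons_mem_RW.1 hv1).2⟩, rfl⟩
    rw [Finset.sum_congr rfl hfib, Finset.sum_const, smul_eq_mul, ih, pow_succ]

private theorem rext_sum (P : List (Lt n) → Prop) (T : List (Lt n) → Prop) :
    ((RW n (k + c)).filter fun w => P (w.drop k) ∧ T w).card =
      ∑ s ∈ (RW n c).filter P, (((RW n (k + c)).filter fun w => w.drop k = s).filter T).card := by
  have hmaps : ∀ w ∈ ((RW n (k + c)).filter fun w => P (w.drop k) ∧ T w),
      w.drop k ∈ (RW n c).filter P := by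
    intro w hw
    rw [Finset.mem_filter] at hw ⊢
    exact ⟨rext_drop_mem hw.1, hw.2.1⟩
  rw [Finset.card_eq_sum_card_fiberwise hmaps]
  refine Finset.sum_congr rfl fun s hs => ?_
  rw [Finset.mem_filter] at hs
  congr 1
  ext w
  simp only [Finset.mem_filter]
  constructor
  · rintro ⟨⟨h1, h2, h3⟩, h4⟩
    exact ⟨⟨h1, h4⟩, h3⟩
  · rintro ⟨⟨h1, h4⟩, h3⟩
    exact ⟨⟨h1, h4 ▸ hs.2, h3⟩, h4⟩

private theorem rext_sum_not (P : List (Lt n) → Prop) (T : List (Lt n) → Prop) :
    ((RW n (k + c)).filter fun w => P (w.drop k) ∧ ¬ T w).card =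
      ∑ s ∈ (RW n c).filter P, (((RW n (k + c)).filter fun w => w.drop k = s).filter
        fun w => ¬ T w).card := by
  have hmaps : ∀ w ∈ ((RW n (k + c)).filter fun w => P (w.drop k) ∧ ¬ T w),
      w.drop k ∈ (RW n c).filter P := by
    intro w hw
    rw [Finset.mem_filter] at hw ⊢
    exact ⟨rext_drop_mem hw.1, hw.2.1⟩
  rw [Finset.card_eq_sum_card_fiberwise hmaps]
  refine Finset.sum_congr rfl fun s hs => ?_
  rw [Finset.mem_filter] at hs
  congr 1
  ext w
  simp only [Finset.mem_filter]
  constructor
  · rintro ⟨⟨h1, h2, h3⟩, h4⟩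
    exact ⟨⟨h1, h4⟩, h3⟩
  · rintro ⟨⟨h1, h4⟩, h3⟩
    exact ⟨⟨h1, h4 ▸ hs.2, h3⟩, h4⟩

theorem card_ext (hc : 1 ≤ c) (P : List (Lt n) → Prop) :
    ((RW n (k + c)).filter fun w => P (w.drop k)).card = (2 * n - 1) ^ k * ((RW n c).filter P).card := by
  have h := rext_sum (n := n) (k := k) (c := c) P (fun _ => True)
  simp only [and_true, Finset.filter_true] at h
  rw [h, Finset.sum_congr rfl fun s hs => card_fiber (k := k) hc (Finset.mem_filter.1 hs).1,
    Finset.sum_const, smul_eq_mul, Nat.mul_comm]

theorem card_ext_avoid (hc : 1 ≤ c) (P R : List (Lt n) → Prop)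
    (h : ∀ s ∈ RW n c, P s → ∃ p : List (Lt n), p.length = k ∧ FreeGroup.IsReduced (p ++ s) ∧ R (p ++ s)) :
    ((RW n (k + c)).filter fun w => P (w.drop k) ∧ ¬ R w).card ≤
      ((2 * n - 1) ^ k - 1) * ((RW n c).filter P).card := by
  rw [rext_sum_not (n := n) (k := k) (c := c) P R]
  have hle : ∀ s ∈ (RW n c).filter P,
      (((RW n (k + c)).filter fun w => w.drop k = s).filter fun w => ¬ R w).card ≤
        (2 * n - 1) ^ k - 1 := by
    intro s hs
    rw [Finset.mem_filter] at hs
    obtain ⟨p, hp1, hp2, hp3⟩ := h s hs.1 hs.2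
    rw [← card_fiber (k := k) hc hs.1]
    have hmem : p ++ s ∈ (RW n (k + c)).filter fun w => w.drop k = s := by
      rw [Finset.mem_filter, mem_RW]
      refine ⟨⟨?_, hp2⟩, ?_⟩
      · rw [List.length_append, hp1, (mem_RW.1 hs.1).1]
      · rw [← hp1]
        exact List.drop_left
    have hsub : (((RW n (k + c)).filter fun w => w.drop k = s).filter fun w => ¬ R w) ⊆
        ((RW n (k + c)).filter fun w => w.drop k = s).erase (p ++ s) := by
      intro w hw
      rw [Finset.mem_filter] at hw
      rw [Finset.mem_erase]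
      refine ⟨?_, hw.1⟩
      rintro rfl
      exact hw.2 hp3
    calc _ ≤ (((RW n (k + c)).filter fun w => w.drop k = s).erase (p ++ s)).card :=
          Finset.card_le_card hsub
      _ = _ := Finset.card_erase_of_mem hmem
  calc _ ≤ ∑ _s ∈ (RW n c).filter P, ((2 * n - 1) ^ k - 1) := Finset.sum_le_sum hle
    _ = _ := by rw [Finset.sum_const, smul_eq_mul, Nat.mul_comm]

end Pool.Agent.RIB
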