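import Pool.Agent.Lib.RIB.RMain

/-!
# RFin : the theorem for tuples of elements of the free group

(module of Lib/RIB, problem MP_cf50d6_gt)
-/

set_option autoImplicit false

open scoped Classical

namespace Pool.Agent.RIB

open Pool.Agent.LIA

theorem toWord_mem {n l : ℕ} {w : FreeGroup (Fin n)} (h : w.norm = l) :
    @FreeGroup.toWord _ (instDecidableEqFin n) w ∈ RW n l := by
  rw [mem_RW]
  exact ⟨h, FreeGroup.isReduced_toWord⟩

theorem nat_card_eq {m n l : ℕ} (Q : (Fin m → FreeGroup (Fin n)) → Prop) :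
    Nat.card {W : Fin m → FreeGroup (Fin n) // (∀ e, (W e).norm = l) ∧ Q W} =
      ((Fintype.piFinset fun _ : Fin m => RW n l).filter
        fun W => Q fun e => FreeGroup.mk (W e)).card := by
  rw [← Nat.card_eq_finsetCard]
  refine Nat.card_congr ⟨fun W => ⟨fun e => @FreeGroup.toWord _ (instDecidableEqFin n) (W.1 e), ?_⟩,
    fun W => ⟨fun e => FreeGroup.mk (W.1 e), ?_⟩, ?_, ?_⟩
  · rw [Finset.mem_filter, Fintype.mem_piFinset]
    refine ⟨fun e => toWord_mem (W.2.1 e), ?_⟩
    have h1 : (fun e => FreeGroup.mk (@FreeGroup.toWord _ (instDecidableEqFin n) (W.1 e))) = W.1 := by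
      funext e
      exact FreeGroup.mk_toWord
    rw [h1]
    exact W.2.2
  · have h1 := W.2
    rw [Finset.mem_filter, Fintype.mem_piFinset] at h1
    refine ⟨fun e => ?_, h1.2⟩
    have h2 := mem_RW.1 (h1.1 e)
    unfold FreeGroup.norm
    rw [FreeGroup.toWord_mk, h2.2.reduce_eq]
    exact h2.1
  · rintro ⟨W, hW⟩
    apply Subtype.ext
    funext e
    exact FreeGroup.mk_toWord
  · rintro ⟨W, hW⟩
    apply Subtype.ext
    funext e
    rw [Finset.mem_filter, Fintype.mem_piFinset] at hW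
    change FreeGroup.toWord (FreeGroup.mk (W e)) = W e
    rw [FreeGroup.toWord_mk, (mem_RW.1 (hW.1 e)).2.reduce_eq]

/-- the number of tuples -/
theorem card_tuples {m n l : ℕ} (hl : 1 ≤ l) :
    Nat.card {W : Fin m → FreeGroup (Fin n) // ∀ e, (W e).norm = l} =
      (2 * n * (2 * n - 1) ^ (l - 1)) ^ m := by
  have h3 := nat_card_eq (m := m) (n := n) (l := l) (fun _ => True)
  simp only [and_true, Finset.filter_true] at h3
  rw [h3, Fintype.card_piFinset_const, card_RW hl]

theorem main_free (ε : ℝ) (hε : 0 < ε) : ∃ l₀ : ℕ, ∀ l ≥ l₀, ∀ n m : ℕ, 2 ≤ n → m + 1 ≤ n →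
    n ^ 6 ≤ l → ∀ i j : Fin m → Fin n,
      (Nat.card {W : Fin m → FreeGroup (Fin n) // (∀ e, (W e).norm = l) ∧
        ¬ LocallyIndicable (Grp i j W)} : ℝ) ≤
        ε * Nat.card {W : Fin m → FreeGroup (Fin n) // ∀ e, (W e).norm = l} := by
  obtain ⟨l₀, h0⟩ := main_list ε hε
  refine ⟨l₀, fun l hl n m hn hmn hnl i j => ?_⟩
  have h1 := h0 l hl n m hn hmn hnl i j
  have h2 : Nat.card {W : Fin m → FreeGroup (Fin n) // ∀ e, (W e).norm = l} =
      (Fintype.piFinset fun _ : Fin m => RW n l).card := by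
    have h3 := nat_card_eq (m := m) (n := n) (l := l) (fun _ => True)
    simp only [and_true, Finset.filter_true] at h3
    exact h3
  have h4 := nat_card_eq (l := l) (fun W : Fin m → FreeGroup (Fin n) => ¬ LocallyIndicable (Grp i j W))
  rw [h2, h4]
  refine le_trans (le_of_eq ?_) h1
  rw [Nat.cast_inj]
  refine Finset.card_bij (fun W _ => W) ?_ (fun _ _ _ _ h => h) ?_
  · intro W hW
    simp only [Finset.mem_filter] at hW ⊢
    exact hW
  · intro W hW
    refine ⟨W, ?_, rfl⟩
    simp only [Finset.mem_filter] at hW ⊢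
    exact hW

end Pool.Agent.RIB
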