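import Pool.Agent.Lib.RIB.RDefs
import Pool.Agent.Lib.TwLI.Defs

/-!
# RGrp : stripping powers at the two ends, the group

(module of Lib/RIB, problem MP_cf50d6_gt)
`x^a` commutes with `x`, so with `W = x^a W' y^b`: `x W y⁻¹ W⁻¹ = x^a (x W' y⁻¹ W'⁻¹) x^(-a)`; the two sets of relators have the same normal closure, the groups are quotients by the same subgroup.
`LocallyIndicable` is the one of `Pool.Agent.LIA` (Lib/MP_cf50d6_gt).
-/

set_option autoImplicit false

open scoped Classical

namespace Pool.Agent.RIB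

open Pool.Agent.LIA

private theorem rgrp_mk_replicate {n : ℕ} (k : ℕ) (x : Fin n) (s : Bool) :
    FreeGroup.mk (List.replicate k (x, s)) = (FreeGroup.mk [(x, s)]) ^ k := by
  induction k with
  | zero => simp [FreeGroup.one_eq_mk]
  | succ k ih =>
    rw [List.replicate_succ, pow_succ', ← ih]
    simp

private theorem rgrp_comm {n : ℕ} (k : ℕ) (x : Fin n) (s : Bool) :
    Commute (FreeGroup.of x) (FreeGroup.mk (List.replicate k (x, s))) := by
  rw [rgrp_mk_replicate]
  apply Commute.pow_right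
  cases s with
  | true => exact Commute.refl _
  | false =>
    have : FreeGroup.mk [(x, false)] = (FreeGroup.of x)⁻¹ := by
      simp [FreeGroup.of, FreeGroup.inv_mk, FreeGroup.invRev]
    rw [this]
    exact (Commute.refl _).inv_right

private theorem rgrp_le {n m : ℕ} (i j : Fin m → Fin n) (W W' g : Fin m → FreeGroup (Fin n))
    (h : ∀ e, FreeGroup.of (i e) * W e * (FreeGroup.of (j e))⁻¹ * (W e)⁻¹ =
      g e * (FreeGroup.of (i e) * W' e * (FreeGroup.of (j e))⁻¹ * (W' e)⁻¹) * (g e)⁻¹) :
    Subgroup.normalClosure (Set.range fun e : Fin m =>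
        FreeGroup.of (i e) * W e * (FreeGroup.of (j e))⁻¹ * (W e)⁻¹) ≤
      Subgroup.normalClosure (Set.range fun e : Fin m =>
        FreeGroup.of (i e) * W' e * (FreeGroup.of (j e))⁻¹ * (W' e)⁻¹) := by
  apply Subgroup.normalClosure_le_normal
  rintro _ ⟨e, rfl⟩
  simp only [SetLike.mem_coe]
  rw [h e]
  exact Subgroup.normalClosure_normal.conj_mem _
    (Subgroup.subset_normalClosure (Set.mem_range_self e)) _

private theorem rgrp_li {G G' : Type} [Group G] [Group G'] (φ : G ≃* G')
    (h : LocallyIndicable G') : LocallyIndicable G := by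
  intro H h1 h2
  have h4 : (H.map φ.toMonoidHom).FG := by
    obtain ⟨S, hS⟩ := h1
    refine ⟨S.image φ.toMonoidHom, ?_⟩
    rw [Finset.coe_image, ← MonoidHom.map_closure, hS]
  obtain ⟨f, hf⟩ := h (H.map φ.toMonoidHom) h4 (by
    intro h3
    exact h2 ((Subgroup.map_eq_bot_iff_of_injective H φ.injective).1 h3))
  refine ⟨f.comp (φ.subgroupMap H).toMonoidHom, ?_⟩
  exact hf.comp (φ.subgroupMap H).surjective

theorem li_strip {n m : ℕ} (i j : Fin m → Fin n) (W W' : Fin m → List (Lt n))
    (a b : Fin m → ℕ) (s s' : Fin m → Bool)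
    (h : ∀ e, W e = List.replicate (a e) (i e, s e) ++ W' e ++ List.replicate (b e) (j e, s' e))
    (h1 : LocallyIndicable (Grp i j fun e => FreeGroup.mk (W' e))) :
    LocallyIndicable (Grp i j fun e => FreeGroup.mk (W e)) := by
  have key : ∀ e, FreeGroup.of (i e) * FreeGroup.mk (W e) * (FreeGroup.of (j e))⁻¹ *
      (FreeGroup.mk (W e))⁻¹ = FreeGroup.mk (List.replicate (a e) (i e, s e)) *
      (FreeGroup.of (i e) * FreeGroup.mk (W' e) * (FreeGroup.of (j e))⁻¹ *
        (FreeGroup.mk (W' e))⁻¹) * (FreeGroup.mk (List.replicate (a e) (i e, s e)))⁻¹ := by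
    intro e
    have e1 := rgrp_comm (a e) (i e) (s e)
    have e2 := rgrp_comm (b e) (j e) (s' e)
    have e3 : FreeGroup.mk (W e) = FreeGroup.mk (List.replicate (a e) (i e, s e)) *
        FreeGroup.mk (W' e) * FreeGroup.mk (List.replicate (b e) (j e, s' e)) := by
      rw [h e, FreeGroup.mul_mk, FreeGroup.mul_mk]
    generalize FreeGroup.mk (List.replicate (a e) (i e, s e)) = A at *
    generalize FreeGroup.mk (List.replicate (b e) (j e, s' e)) = B at *
    generalize FreeGroup.mk (W' e) = w at *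
    generalize FreeGroup.of (i e) = x at *
    generalize FreeGroup.of (j e) = y at *
    rw [e3]
    have e4 : x * A = A * x := e1
    have e5 : B * y⁻¹ = y⁻¹ * B := (e2.symm.inv_right).eq
    calc x * (A * w * B) * y⁻¹ * (A * w * B)⁻¹
        = (x * A) * w * (B * y⁻¹) * B⁻¹ * w⁻¹ * A⁻¹ := by group
      _ = (A * x) * w * (y⁻¹ * B) * B⁻¹ * w⁻¹ * A⁻¹ := by rw [e4, e5]
      _ = A * (x * w * y⁻¹ * w⁻¹) * A⁻¹ := by group
  have hle := rgrp_le i j (fun e => FreeGroup.mk (W e)) (fun e => FreeGroup.mk (W' e))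
    (fun e => FreeGroup.mk (List.replicate (a e) (i e, s e))) key
  have hge := rgrp_le i j (fun e => FreeGroup.mk (W' e)) (fun e => FreeGroup.mk (W e))
    (fun e => (FreeGroup.mk (List.replicate (a e) (i e, s e)))⁻¹) (by
      intro e
      show _ = (FreeGroup.mk (List.replicate (a e) (i e, s e)))⁻¹ *
        (FreeGroup.of (i e) * FreeGroup.mk (W e) * (FreeGroup.of (j e))⁻¹ *
          (FreeGroup.mk (W e))⁻¹) * ((FreeGroup.mk (List.replicate (a e) (i e, s e)))⁻¹)⁻¹
      rw [key e]
      group)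
  exact rgrp_li (QuotientGroup.quotientMulEquivOfEq (le_antisymm hle hge)) h1

end Pool.Agent.RIB
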