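import Mathlib

/-!
# RNum : the choice of K, L, B

(module of Lib/RIB, problem MP_cf50d6_gt)
`q = 2 m + 1` (`n = m + 1`), `y = l ^ (1/24)`. Choice: `L = 4 * (Nat.log 2 l + 1)`, so
`l ^ 4 ≤ 2 ^ L`; `k = Nat.clog q (16 * L)`, so `16 L ≤ q ^ k` and `q ^ (k - 1) < 16 L`; `K = k + 2`;
`B = (l - (3 L + 1)) / (K + 1)`. For large `l`: `L ≤ y`, `m ≤ y ^ 4`, `K + 1 ≤ 11 y`,
`q ^ (K + 1) ≤ 1296 y ^ 17`, `y ^ 23 / 22 ≤ B`, so `B / q ^ (K + 1) ≥ y`.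
-/

set_option autoImplicit false

open scoped Classical

namespace Pool.Agent.RIB

/-- the numbers `L`, `k` : purely arithmetic part -/
private theorem RNum_k (q L : ℕ) (hq : 3 ≤ q) (hL : 4 ≤ L) :
    ∃ k : ℕ, 1 ≤ k ∧ 16 * L ≤ q ^ k ∧ q ^ (k - 1) < 16 * L ∧ k ≤ 8 * L := by
  have hq1 : 1 < q := by omega
  have h16 : 1 < 16 * L := by omega
  have hk1 : 0 < Nat.clog q (16 * L) := Nat.clog_pos hq1 h16
  have hk2 : 16 * L ≤ q ^ Nat.clog q (16 * L) := Nat.le_pow_clog hq1 _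
  have hk3 : q ^ (Nat.clog q (16 * L) - 1) < 16 * L := Nat.pow_pred_clog_lt_self hq1 h16
  refine ⟨Nat.clog q (16 * L), hk1, hk2, hk3, ?_⟩
  have h3 : 3 ^ (Nat.clog q (16 * L) - 1) ≤ q ^ (Nat.clog q (16 * L) - 1) :=
    Nat.pow_le_pow_left hq _
  have h4 : ∀ j : ℕ, 2 * j + 1 ≤ 3 ^ j := by
    intro j
    induction j with
    | zero => simp
    | succ j ih => rw [pow_succ]; omega
  have h5 := h4 (Nat.clog q (16 * L) - 1)
  omega

private theorem RNum_exp (Q : ℝ) (B : ℕ) (hQ : 1 ≤ Q) :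
    (1 - 1 / Q) ^ B ≤ Real.exp (-((B : ℝ) / Q)) := by
  have h0 : 0 ≤ 1 - 1 / Q := by
    rw [sub_nonneg, div_le_one (by linarith)]
    exact hQ
  have h1 : 1 - 1 / Q ≤ Real.exp (-(1 / Q)) := Real.one_sub_le_exp_neg _
  calc (1 - 1 / Q) ^ B ≤ (Real.exp (-(1 / Q))) ^ B := pow_le_pow_left₀ h0 h1 B
    _ = Real.exp (-((B : ℝ) / Q)) := by
      rw [← Real.exp_nat_mul]
      congr 1
      ring

/-- the conditions on `y` -/
private theorem RNum_ev (ε : ℝ) (hε : 0 < ε) : ∀ᶠ y : ℝ in Filter.atTop,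
    8 ≤ y ∧ 4 / ε ≤ y ∧ 4 * (24 * (Real.log y / Real.log 2) + 1) ≤ y ∧
      5184 * y ^ 25 * Real.exp (-y) ≤ ε / 2 := by
  have h1 : ∀ᶠ y : ℝ in Filter.atTop, (8 : ℝ) ≤ y := Filter.eventually_ge_atTop 8
  have h2 : ∀ᶠ y : ℝ in Filter.atTop, 4 / ε ≤ y := Filter.eventually_ge_atTop _
  have h3 : ∀ᶠ y : ℝ in Filter.atTop, 4 * (24 * (Real.log y / Real.log 2) + 1) ≤ y := by
    have hl2 : 0 < Real.log 2 := Real.log_pos (by norm_num)
    have hc : 0 < Real.log 2 / 192 := by positivity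
    have h := Real.isLittleO_log_id_atTop.bound hc
    filter_upwards [h, h1] with y hy hy8
    have hlog : 0 ≤ Real.log y := Real.log_nonneg (by linarith)
    rw [Real.norm_eq_abs, Real.norm_eq_abs, abs_of_nonneg hlog] at hy
    simp only [id] at hy
    rw [abs_of_nonneg (by linarith : (0 : ℝ) ≤ y)] at hy
    have h5 : Real.log y / Real.log 2 ≤ y / 192 := by
      rw [div_le_iff₀ hl2]
      calc Real.log y ≤ Real.log 2 / 192 * y := hy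
        _ = y / 192 * Real.log 2 := by ring
    linarith
  have h4 : ∀ᶠ y : ℝ in Filter.atTop, 5184 * y ^ 25 * Real.exp (-y) ≤ ε / 2 := by
    have h := Real.tendsto_pow_mul_exp_neg_atTop_nhds_zero 25
    have hpos : 0 < ε / 2 / 5184 := by positivity
    have h6 := h.eventually (gt_mem_nhds hpos)
    filter_upwards [h6] with y hy
    have : 5184 * y ^ 25 * Real.exp (-y) = 5184 * (y ^ 25 * Real.exp (-y)) := by ring
    rw [this]
    have h7 : 5184 * (y ^ 25 * Real.exp (-y)) ≤ 5184 * (ε / 2 / 5184) := by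
      have := hy.le
      linarith
    calc 5184 * (y ^ 25 * Real.exp (-y)) ≤ 5184 * (ε / 2 / 5184) := h7
      _ = ε / 2 := by ring
  filter_upwards [h1, h2, h3, h4] with y a b c d
  exact ⟨a, b, c, d⟩

theorem exists_numbers (ε : ℝ) (hε : 0 < ε) : ∃ l₀ : ℕ, ∀ l ≥ l₀, ∀ m : ℕ, 1 ≤ m → m ^ 6 ≤ l →
    ∃ K L B : ℕ, 3 ≤ K ∧ 1 ≤ L ∧ 3 * L ≤ (2 * m + 1) ^ (K - 2) ∧ 4 * (K + L) ≤ (2 * m + 1) ^ (K - 1) ∧
      L + (2 * L + 1) + (K + 1) * B ≤ l ∧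
      2 * ((m : ℝ) * l) ^ 2 / ((2 * m + 1 : ℕ) : ℝ) ^ L ≤ ε / 2 ∧
      (m : ℝ) * ((2 * (m + 1) * (2 * m + 1) ^ (K - 1) : ℕ) : ℝ) *
          (1 - 1 / ((2 * m + 1 : ℕ) : ℝ) ^ (K + 1)) ^ B ≤ ε / 2 := by
  have htend : Filter.Tendsto (fun l : ℕ => (l : ℝ) ^ ((1 : ℝ) / 24)) Filter.atTop Filter.atTop :=
    (tendsto_rpow_atTop (by norm_num)).comp tendsto_natCast_atTop_atTop
  have hev := htend.eventually (RNum_ev ε hε)
  obtain ⟨l₀, hl₀⟩ := Filter.eventually_atTop.1 hev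
  refine ⟨max l₀ 1, fun l hl m hm hml => ?_⟩
  have hl1 : 1 ≤ l := le_trans (le_max_right _ _) hl
  obtain ⟨hy8, hyε, hylog, hyexp⟩ := hl₀ l (le_trans (le_max_left _ _) hl)
  set y : ℝ := (l : ℝ) ^ ((1 : ℝ) / 24) with hy
  have hlR : (1 : ℝ) ≤ (l : ℝ) := by exact_mod_cast hl1
  have hy24 : y ^ 24 = (l : ℝ) := by
    rw [hy, ← Real.rpow_natCast, ← Real.rpow_mul (by linarith)]
    norm_num
  have hy0 : 0 < y := by linarith
  have hy1 : 1 ≤ y := by linarith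
  -- L
  set L : ℕ := 4 * (Nat.log 2 l + 1) with hL
  have hL4 : 4 ≤ L := by omega
  have hLy : (L : ℝ) ≤ y := by
    have h1 : (Nat.log 2 l : ℝ) ≤ Real.logb 2 l := Real.natLog_le_logb l 2
    have h2 : Real.logb 2 l = 24 * (Real.log y / Real.log 2) := by
      rw [← hy24, Real.logb, Real.log_pow]
      push_cast
      ring
    have h3 : (L : ℝ) = 4 * ((Nat.log 2 l : ℝ) + 1) := by
      rw [hL]; push_cast; ring
    rw [h3]
    linarith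
  have hl4 : (l : ℝ) ^ 4 ≤ (2 : ℝ) ^ L := by
    have h1 : l < 2 ^ (Nat.log 2 l + 1) := Nat.lt_pow_succ_log_self (by norm_num) l
    have h2 : l ^ 4 ≤ 2 ^ L := by
      calc l ^ 4 ≤ (2 ^ (Nat.log 2 l + 1)) ^ 4 := Nat.pow_le_pow_left h1.le 4
        _ = 2 ^ L := by rw [← pow_mul, hL]; congr 1; ring
    exact_mod_cast h2
  -- m
  have hmR : (1 : ℝ) ≤ (m : ℝ) := by exact_mod_cast hm
  have hm6 : (m : ℝ) ^ 6 ≤ (l : ℝ) := by exact_mod_cast hml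
  have hmy : (m : ℝ) ≤ y ^ 4 := by
    have h1 : (m : ℝ) ^ 6 ≤ (y ^ 4) ^ 6 := by
      rw [← pow_mul]
      norm_num
      rw [hy24]
      exact hm6
    exact le_of_pow_le_pow_left₀ (by norm_num) (by positivity) h1
  -- k
  obtain ⟨k, hk1, hk2, hk3, hk4⟩ := RNum_k (2 * m + 1) L (by omega) hL4
  have hKpow : (2 * m + 1) ^ (k + 1) = (2 * m + 1) ^ k * (2 * m + 1) := pow_succ _ _
  have hK1y : ((k + 2 + 1 : ℕ) : ℝ) ≤ 11 * y := by
    have h1 : k + 2 + 1 ≤ 9 * L := by omega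
    have h2 : ((k + 2 + 1 : ℕ) : ℝ) ≤ 9 * (L : ℝ) := by exact_mod_cast h1
    linarith
  -- Q
  have hQ1 : (1 : ℝ) ≤ ((2 * m + 1 : ℕ) : ℝ) ^ (k + 2 + 1) := by
    apply one_le_pow₀
    push_cast
    linarith
  have hQy : ((2 * m + 1 : ℕ) : ℝ) ^ (k + 2 + 1) ≤ 1296 * y ^ 17 := by
    have h1 : (2 * m + 1) ^ (k + 2 + 1) = (2 * m + 1) ^ (k - 1) * (2 * m + 1) ^ 4 := by
      rw [← pow_add]
      congr 1
      omega
    have h2 : ((2 * m + 1 : ℕ) : ℝ) ^ (k + 2 + 1) =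
        ((2 * m + 1 : ℕ) : ℝ) ^ (k - 1) * ((2 * m + 1 : ℕ) : ℝ) ^ 4 := by
      exact_mod_cast h1
    rw [h2]
    have h3 : ((2 * m + 1 : ℕ) : ℝ) ^ (k - 1) ≤ 16 * y := by
      have h4 : ((2 * m + 1 : ℕ) : ℝ) ^ (k - 1) ≤ 16 * (L : ℝ) := by exact_mod_cast hk3.le
      linarith
    have h5 : ((2 * m + 1 : ℕ) : ℝ) ^ 4 ≤ 81 * y ^ 16 := by
      have h6 : ((2 * m + 1 : ℕ) : ℝ) ≤ 3 * y ^ 4 := by
        push_cast
        linarith
      calc ((2 * m + 1 : ℕ) : ℝ) ^ 4 ≤ (3 * y ^ 4) ^ 4 := pow_le_pow_left₀ (by positivity) h6 4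
        _ = 81 * y ^ 16 := by ring
    calc ((2 * m + 1 : ℕ) : ℝ) ^ (k - 1) * ((2 * m + 1 : ℕ) : ℝ) ^ 4
        ≤ (16 * y) * (81 * y ^ 16) := mul_le_mul h3 h5 (by positivity) (by positivity)
      _ = 1296 * y ^ 17 := by ring
  -- B
  set B : ℕ := (l - (3 * L + 1)) / (k + 2 + 1) with hB
  have hpow2 : ∀ j : ℕ, (1 : ℝ) ≤ y ^ j := fun j => one_le_pow₀ hy1
  have hbig : 16 * y ≤ y ^ 24 / 2 := by
    have h1 : (8 : ℝ) ^ 2 ≤ y ^ 2 := pow_le_pow_left₀ (by norm_num) hy8 2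
    have h2 : y ^ 24 = y ^ 2 * y ^ 21 * y := by ring
    have h3 := hpow2 21
    have h4 : (64 : ℝ) * 1 ≤ y ^ 2 * y ^ 21 := mul_le_mul (by linarith) h3 (by norm_num) (by positivity)
    nlinarith
  have h3L : 3 * L + 1 ≤ l := by
    have h1 : ((3 * L + 1 : ℕ) : ℝ) ≤ (l : ℝ) := by
      push_cast
      rw [← hy24]
      linarith
    exact_mod_cast h1
  have hBle : (k + 2 + 1) * B ≤ l - (3 * L + 1) := by
    rw [mul_comm]
    exact Nat.div_mul_le_self _ _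
  have hBlt : l - (3 * L + 1) < (k + 2 + 1) * (B + 1) := by
    rw [hB]
    exact Nat.lt_mul_div_succ _ (by omega)
  have hBy : y ^ 23 / 22 ≤ (B : ℝ) := by
    have h1 : l < (k + 2 + 1) * (B + 1) + (3 * L + 1) := by omega
    have h2 : (l : ℝ) < ((k + 2 + 1 : ℕ) : ℝ) * ((B : ℝ) + 1) + (3 * (L : ℝ) + 1) := by
      exact_mod_cast h1
    rw [← hy24] at h2
    have hB0 : (0 : ℝ) ≤ (B : ℝ) + 1 := by positivity
    have h3 : ((k + 2 + 1 : ℕ) : ℝ) * ((B : ℝ) + 1) ≤ 11 * y * ((B : ℝ) + 1) :=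
      mul_le_mul_of_nonneg_right hK1y hB0
    have h4 : y ^ 24 / 2 ≤ 11 * y * (B : ℝ) := by nlinarith
    have h5 : y ^ 24 = y ^ 23 * y := by ring
    rw [h5] at h4
    have h6 : y ^ 23 / 22 * y ≤ (B : ℝ) * y := by linarith
    exact le_of_mul_le_mul_right h6 hy0
  refine ⟨k + 2, L, B, by omega, by omega, ?_, ?_, ?_, ?_, ?_⟩
  · have : k + 2 - 2 = k := by omega
    rw [this]
    omega
  · have : k + 2 - 1 = k + 1 := by omega
    rw [this, hKpow]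
    nlinarith
  · omega
  · -- 2 (m l)^2 / q^L ≤ ε / 2
    have hqL : (l : ℝ) ^ 4 ≤ ((2 * m + 1 : ℕ) : ℝ) ^ L := by
      refine le_trans hl4 (pow_le_pow_left₀ (by norm_num) ?_ L)
      push_cast
      linarith
    have hm2 : (m : ℝ) ^ 2 ≤ (l : ℝ) :=
      le_trans (pow_le_pow_right₀ hmR (by norm_num : 2 ≤ 6)) hm6
    have hl0 : (0 : ℝ) < l := by linarith
    have h1 : 2 * ((m : ℝ) * l) ^ 2 / ((2 * m + 1 : ℕ) : ℝ) ^ L ≤
        2 * ((m : ℝ) * l) ^ 2 / (l : ℝ) ^ 4 :=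
      div_le_div_of_nonneg_left (by positivity) (by positivity) hqL
    have h2 : 2 * ((m : ℝ) * l) ^ 2 / (l : ℝ) ^ 4 ≤ 2 / l := by
      rw [div_le_div_iff₀ (by positivity) hl0]
      have : 2 * ((m : ℝ) * l) ^ 2 * l = 2 * ((m : ℝ) ^ 2) * (l : ℝ) ^ 3 := by ring
      rw [this]
      have h3 : 2 * ((m : ℝ) ^ 2) * (l : ℝ) ^ 3 ≤ 2 * (l : ℝ) * (l : ℝ) ^ 3 := by
        apply mul_le_mul_of_nonneg_right _ (by positivity)
        linarith
      calc 2 * ((m : ℝ) ^ 2) * (l : ℝ) ^ 3 ≤ 2 * (l : ℝ) * (l : ℝ) ^ 3 := h3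
        _ = 2 * (l : ℝ) ^ 4 := by ring
    have h4 : 2 / (l : ℝ) ≤ ε / 2 := by
      have hyl : y ≤ (l : ℝ) := by
        rw [← hy24]
        calc y = y ^ 1 := (pow_one y).symm
          _ ≤ y ^ 24 := pow_le_pow_right₀ hy1 (by norm_num)
      have h5 : 4 / ε ≤ (l : ℝ) := le_trans hyε hyl
      rw [div_le_iff₀ hε] at h5
      rw [div_le_div_iff₀ hl0 (by norm_num)]
      linarith
    linarith
  · -- the last inequality
    have hE := RNum_exp (((2 * m + 1 : ℕ) : ℝ) ^ (k + 2 + 1)) B hQ1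
    have hexp : (1 - 1 / ((2 * m + 1 : ℕ) : ℝ) ^ (k + 2 + 1)) ^ B ≤ Real.exp (-y) := by
      refine le_trans hE (Real.exp_le_exp.2 (neg_le_neg ?_))
      rw [le_div_iff₀ (by linarith)]
      have h1 : y * ((2 * m + 1 : ℕ) : ℝ) ^ (k + 2 + 1) ≤ y * (1296 * y ^ 17) :=
        mul_le_mul_of_nonneg_left hQy hy0.le
      have h2 : y * (1296 * y ^ 17) ≤ y ^ 23 / 22 := by
        have h3 : (8 : ℝ) ^ 5 ≤ y ^ 5 := pow_le_pow_left₀ (by norm_num) hy8 5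
        have h4 : y ^ 23 = y ^ 5 * y ^ 18 := by ring
        have h5 : y * (1296 * y ^ 17) = 1296 * y ^ 18 := by ring
        rw [h4, h5]
        have h6 := hpow2 18
        nlinarith
      linarith
    have hpre : (m : ℝ) * ((2 * (m + 1) * (2 * m + 1) ^ (k + 2 - 1) : ℕ) : ℝ) ≤ 5184 * y ^ 25 := by
      have h1 : (2 * (m + 1) * (2 * m + 1) ^ (k + 2 - 1) : ℕ) ≤
          (4 * m) * (2 * m + 1) ^ (k + 2 + 1) := by
        apply Nat.mul_le_mul (by omega)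
        exact Nat.pow_le_pow_right (by omega) (by omega)
      have h2 : ((2 * (m + 1) * (2 * m + 1) ^ (k + 2 - 1) : ℕ) : ℝ) ≤
          (4 * (m : ℝ)) * ((2 * m + 1 : ℕ) : ℝ) ^ (k + 2 + 1) := by
        exact_mod_cast h1
      have h3 : (4 * (m : ℝ)) * ((2 * m + 1 : ℕ) : ℝ) ^ (k + 2 + 1) ≤
          (4 * y ^ 4) * (1296 * y ^ 17) :=
        mul_le_mul (by linarith) hQy (by positivity) (by positivity)
      calc (m : ℝ) * ((2 * (m + 1) * (2 * m + 1) ^ (k + 2 - 1) : ℕ) : ℝ)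
          ≤ y ^ 4 * ((4 * y ^ 4) * (1296 * y ^ 17)) :=
            mul_le_mul hmy (le_trans h2 h3) (by positivity) (by positivity)
        _ = 5184 * y ^ 25 := by ring
    have hE0 : 0 ≤ (1 - 1 / ((2 * m + 1 : ℕ) : ℝ) ^ (k + 2 + 1)) ^ B := by
      apply pow_nonneg
      rw [sub_nonneg, div_le_one (by linarith)]
      exact hQ1
    refine le_trans (mul_le_mul hpre hexp hE0 (by positivity)) hyexp

end Pool.Agent.RIB
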