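import Mathlib

/-!
# RTup : tuples, one coordinate at a time

(module of Lib/RIB, problem MP_cf50d6_gt)
If for every tuple `W` the fraction of the `x` for which `Function.update W e x` is bad is at most `δ`, then the fraction of the bad tuples is at most `δ`.
Proof: count the pairs `(W, x)` with `Bad (Function.update W e x)`: the number is at most `#tuples * δ * #T`; the involution `(W, x) ↦ (Function.update W e x, W e)` of `tuples × T` shows that it is `#{bad W} * #T`.
Divide by `#T` (if `T` is empty both sides are zero, as `e` exists).
-/

set_option autoImplicit false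

open scoped Classical

namespace Pool.Agent.RIB

theorem card_tuple {β : Type*} {m : ℕ} (T : Finset β) (δ : ℝ) (e : Fin m) (Bad : (Fin m → β) → Prop)
    (h : ∀ W ∈ Fintype.piFinset (fun _ : Fin m => T),
      ((T.filter fun x => Bad (Function.update W e x)).card : ℝ) ≤ δ * T.card) :
    (((Fintype.piFinset fun _ : Fin m => T).filter Bad).card : ℝ) ≤
      δ * (Fintype.piFinset fun _ : Fin m => T).card := by
  set TT := Fintype.piFinset (fun _ : Fin m => T) with hTT
  rcases T.eq_empty_or_nonempty with hT | hT
  · have : TT = ∅ := by
      refine Finset.eq_empty_of_forall_notMem fun W hW => ?_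
      have h0 := Fintype.mem_piFinset.1 hW e
      rw [hT] at h0
      exact absurd h0 (Finset.notMem_empty _)
    simp [this]
  · have hTpos : (0 : ℝ) < T.card := by exact_mod_cast hT.card_pos
    have hmem : ∀ W : Fin m → β, W ∈ TT ↔ ∀ a, W a ∈ T := fun W => Fintype.mem_piFinset
    have hupd : ∀ W ∈ TT, ∀ x ∈ T, Function.update W e x ∈ TT := by
      intro W hW x hx
      rw [hmem] at hW ⊢
      intro a
      rcases eq_or_ne a e with rfl | ha
      · simpa using hx
      · simpa [ha] using hW a
    -- the pairs
    have h1 : (((TT ×ˢ T).filter fun p => Bad (Function.update p.1 e p.2)).card : ℝ) ≤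
        TT.card * (δ * T.card) := by
      rw [Finset.card_filter]
      push_cast
      rw [Finset.sum_product]
      calc (∑ x ∈ TT, ∑ y ∈ T, (if Bad (Function.update x e y) then (1 : ℝ) else 0))
          ≤ ∑ _x ∈ TT, δ * T.card := by
            refine Finset.sum_le_sum fun W hW => ?_
            refine le_trans (le_of_eq ?_) (h W hW)
            rw [Finset.card_filter]
            push_cast
            rfl
        _ = TT.card * (δ * T.card) := by simp
    have h2 : (((TT ×ˢ T).filter fun p => Bad (Function.update p.1 e p.2)).card : ℝ) =
        (TT.filter Bad).card * T.card := by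
      rw [← Nat.cast_mul, ← Finset.card_product]
      congr 1
      refine Finset.card_bij' (fun p _ => (Function.update p.1 e p.2, p.1 e))
        (fun p _ => (Function.update p.1 e p.2, p.1 e)) ?_ ?_ ?_ ?_
      · rintro ⟨W, x⟩ hp
        simp only [Finset.mem_filter, Finset.mem_product] at hp ⊢
        exact ⟨⟨hupd W hp.1.1 x hp.1.2, hp.2⟩, (hmem W).1 hp.1.1 e⟩
      · rintro ⟨W, x⟩ hp
        simp only [Finset.mem_filter, Finset.mem_product] at hp ⊢
        refine ⟨⟨hupd W hp.1.1 x hp.2, (hmem W).1 hp.1.1 e⟩, ?_⟩
        simpa using hp.1.2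
      · rintro ⟨W, x⟩ _
        simp
      · rintro ⟨W, x⟩ _
        simp
    have h3 : ((TT.filter Bad).card : ℝ) * T.card ≤ (δ * TT.card) * T.card := by
      rw [← h2]
      refine h1.trans (le_of_eq ?_)
      ring
    exact le_of_mul_le_mul_right h3 hTpos

end Pool.Agent.RIB
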