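import Pool.Agent.Lib.RIB.RAvoid
import Pool.Agent.Lib.RIB.RTup

/-!
# RPone : the number of tuples without (P1)

(module of Lib/RIB, problem MP_cf50d6_gt)
Union bound over `e` and `u ∈ RW n K` (`card_RW`: `2 n (2 n - 1)^(K-1)` words), `card_tuple` for the coordinate `e`, `card_avoid`.
-/

set_option autoImplicit false

open scoped Classical

namespace Pool.Agent.RIB

theorem card_not_P1 {n m l K a b B : ℕ} (hn : 2 ≤ n) (hK : 1 ≤ K)
    (hB : a + (b + 1) + (K + 1) * B ≤ l) :
    (((Fintype.piFinset fun _ : Fin m => RW n l).filter fun W => ¬ P1 K a b W).card : ℝ) ≤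
      ((m : ℝ) * ((2 * n * (2 * n - 1) ^ (K - 1) : ℕ) : ℝ) *
          (1 - 1 / ((2 * n - 1 : ℕ) : ℝ) ^ (K + 1)) ^ B) *
        (Fintype.piFinset fun _ : Fin m => RW n l).card := by
  set δ : ℝ := (1 - 1 / ((2 * n - 1 : ℕ) : ℝ) ^ (K + 1)) ^ B with hδ
  set T := Fintype.piFinset fun _ : Fin m => RW n l with hT
  -- one word, one coordinate
  have h1 : ∀ (e : Fin m) (u : List (Lt n)), u ∈ RW n K →
      ((T.filter fun W => ∀ t, a ≤ t → t + K + b ≤ (W e).length → sub (W e) t K ≠ u).card : ℝ) ≤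
        δ * T.card := by
    intro e u hu
    refine card_tuple (RW n l) δ e
      (fun W => ∀ t, a ≤ t → t + K + b ≤ (W e).length → sub (W e) t K ≠ u) ?_
    intro W _
    refine le_trans ?_ (card_avoid (a := a) (b := b) (B := B) hn hK hu hB)
    rw [Nat.cast_le]
    apply Finset.card_le_card
    intro x hx
    rw [Finset.mem_filter] at hx ⊢
    refine ⟨hx.1, ?_⟩
    have h2 := hx.2
    simp only [Function.update_self] at h2
    rw [(mem_RW.1 hx.1).1] at h2
    exact h2
  have hsub : (T.filter fun W => ¬ P1 K a b W) ⊆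
      (Finset.univ ×ˢ RW n K).biUnion fun p : Fin m × List (Lt n) =>
        T.filter fun W => ∀ t, a ≤ t → t + K + b ≤ (W p.1).length → sub (W p.1) t K ≠ p.2 := by
    intro W hW
    rw [Finset.mem_filter] at hW
    obtain ⟨hW1, hW2⟩ := hW
    unfold P1 at hW2
    push Not at hW2
    obtain ⟨e, u, hu, h3⟩ := hW2
    rw [Finset.mem_biUnion]
    exact ⟨(e, u), Finset.mem_product.2 ⟨Finset.mem_univ _, hu⟩,
      Finset.mem_filter.2 ⟨hW1, fun t ht ht' => h3 t ht ht'⟩⟩
  calc ((T.filter fun W => ¬ P1 K a b W).card : ℝ)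
      ≤ (((Finset.univ ×ˢ RW n K).biUnion fun p : Fin m × List (Lt n) =>
        T.filter fun W => ∀ t, a ≤ t → t + K + b ≤ (W p.1).length → sub (W p.1) t K ≠ p.2).card : ℝ) := by
        exact_mod_cast Finset.card_le_card hsub
    _ ≤ ∑ p ∈ (Finset.univ ×ˢ RW n K : Finset (Fin m × List (Lt n))),
        ((T.filter fun W => ∀ t, a ≤ t → t + K + b ≤ (W p.1).length →
          sub (W p.1) t K ≠ p.2).card : ℝ) := by
        exact_mod_cast Finset.card_biUnion_le
    _ ≤ ∑ p ∈ (Finset.univ ×ˢ RW n K : Finset (Fin m × List (Lt n))), δ * T.card := by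
        refine Finset.sum_le_sum fun p hp => ?_
        exact h1 p.1 p.2 (Finset.mem_product.1 hp).2
    _ = _ := by
        rw [Finset.sum_const, Finset.card_product, Finset.card_univ, Fintype.card_fin,
          card_RW hK, nsmul_eq_mul, Nat.cast_mul]
        ring

end Pool.Agent.RIB
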