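import Pool.Agent.Lib.RIB.RSub
import Pool.Agent.Lib.RIB.RTup

/-!
# RPtwo : the number of tuples without (P2)

(module of Lib/RIB, problem MP_cf50d6_gt)
If `P2 L W` fails, `W e` of length `l`, then for some `e, e'` and `t, t' < l` (`L ≥ 1`), `t + L ≤ l`, `t' + L ≤ l`, either `sub (W e) t L = sub (W e') t' L` and `(e, t) ≠ (e', t')`, or
`sub (W e) t L = FreeGroup.invRev (sub (W e') t' L)`. Union bound over `(e, e', t, t')` (`(m l)^2` quadruples, 2 kinds), each has at most `(2 n - 1)^(-L) * #tuples` elements, by `card_tuple`: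
* `e ≠ e'` : coordinate `e`, `card_sub_word` with `v = sub (W e') t' L` (unchanged by the update) or its inverse;
* `e = e'` : coordinate `e`, `card_sub_sub`, `card_sub_inv` (if `t' < t` exchange: `FreeGroup.invRev_invRev`).
-/

set_option autoImplicit false

open scoped Classical

namespace Pool.Agent.RIB

private theorem RPtwo_real {q L a b : ℕ} (hq : 1 ≤ q) (h : a * q ^ L ≤ b) :
    (a : ℝ) ≤ (1 / ((q : ℕ) : ℝ) ^ L) * b := by
  have hp : (0 : ℝ) < (q : ℝ) ^ L := by
    have : (0 : ℝ) < (q : ℝ) := by exact_mod_cast hq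
    positivity
  have h' : (a : ℝ) * (q : ℝ) ^ L ≤ b := by exact_mod_cast h
  rw [div_mul_eq_mul_div, one_mul, le_div_iff₀ hp]
  exact h'

/-- the two kinds of failure -/
private def RPtwo_B1 {n m : ℕ} (l L : ℕ) (q : (Fin m × Fin m) × (Fin l × Fin l))
    (W : Fin m → List (Lt n)) : Prop :=
  (q.2.1 : ℕ) + L ≤ l ∧ (q.2.2 : ℕ) + L ≤ l ∧ ¬ (q.1.1 = q.1.2 ∧ q.2.1 = q.2.2) ∧
    sub (W q.1.1) q.2.1 L = sub (W q.1.2) q.2.2 L

private def RPtwo_B2 {n m : ℕ} (l L : ℕ) (q : (Fin m × Fin m) × (Fin l × Fin l))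
    (W : Fin m → List (Lt n)) : Prop :=
  (q.2.1 : ℕ) + L ≤ l ∧ (q.2.2 : ℕ) + L ≤ l ∧
    sub (W q.1.1) q.2.1 L = FreeGroup.invRev (sub (W q.1.2) q.2.2 L)

private theorem RPtwo_card_B1 {n m l L : ℕ} (hn : 1 ≤ n) (q : (Fin m × Fin m) × (Fin l × Fin l)) :
    (((Fintype.piFinset fun _ : Fin m => RW n l).filter (RPtwo_B1 l L q)).card : ℝ) ≤
      (1 / ((2 * n - 1 : ℕ) : ℝ) ^ L) * (Fintype.piFinset fun _ : Fin m => RW n l).card := by
  obtain ⟨⟨e, e'⟩, t, t'⟩ := q
  have hq : 1 ≤ 2 * n - 1 := by omega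
  refine card_tuple (RW n l) _ e _ fun W _ => RPtwo_real hq ?_
  by_cases h1 : (t : ℕ) + L ≤ l ∧ (t' : ℕ) + L ≤ l ∧ ¬ (e = e' ∧ t = t')
  · obtain ⟨ht, ht', hne⟩ := h1
    by_cases hee : e = e'
    · subst hee
      have htt : (t : ℕ) ≠ t' := fun h => hne ⟨rfl, Fin.ext h⟩
      rcases lt_or_gt_of_ne htt with hlt | hlt
      · refine le_trans (Nat.mul_le_mul_right _ (Finset.card_le_card ?_))
          (card_sub_sub hn hlt ht')
        intro x hx
        rw [Finset.mem_filter] at hx ⊢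
        refine ⟨hx.1, ?_⟩
        have := hx.2.2.2.2
        simpa using this
      · refine le_trans (Nat.mul_le_mul_right _ (Finset.card_le_card ?_))
          (card_sub_sub hn hlt ht)
        intro x hx
        rw [Finset.mem_filter] at hx ⊢
        refine ⟨hx.1, ?_⟩
        have := hx.2.2.2.2
        simpa using this.symm
    · refine le_trans (Nat.mul_le_mul_right _ (Finset.card_le_card ?_))
        (card_sub_word hn ht (sub (W e') t' L))
      intro x hx
      rw [Finset.mem_filter] at hx ⊢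
      refine ⟨hx.1, ?_⟩
      have := hx.2.2.2.2
      simpa [Function.update_of_ne (Ne.symm hee)] using this
  · have : ((RW n l).filter fun x => RPtwo_B1 l L ((e, e'), t, t') (Function.update W e x)) = ∅ := by
      apply Finset.filter_eq_empty_iff.mpr
      intro x _ hx
      exact h1 ⟨hx.1, hx.2.1, hx.2.2.1⟩
    rw [this]
    simp

private theorem RPtwo_card_B2 {n m l L : ℕ} (hn : 1 ≤ n) (hL : 1 ≤ L)
    (q : (Fin m × Fin m) × (Fin l × Fin l)) :
    (((Fintype.piFinset fun _ : Fin m => RW n l).filter (RPtwo_B2 l L q)).card : ℝ) ≤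
      (1 / ((2 * n - 1 : ℕ) : ℝ) ^ L) * (Fintype.piFinset fun _ : Fin m => RW n l).card := by
  obtain ⟨⟨e, e'⟩, t, t'⟩ := q
  have hq : 1 ≤ 2 * n - 1 := by omega
  refine card_tuple (RW n l) _ e _ fun W _ => RPtwo_real hq ?_
  by_cases h1 : (t : ℕ) + L ≤ l ∧ (t' : ℕ) + L ≤ l
  · obtain ⟨ht, ht'⟩ := h1
    by_cases hee : e = e'
    · subst hee
      rcases le_total (t : ℕ) t' with hle | hle
      · refine le_trans (Nat.mul_le_mul_right _ (Finset.card_le_card ?_))
          (card_sub_inv hn hle ht' hL)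
        intro x hx
        rw [Finset.mem_filter] at hx ⊢
        refine ⟨hx.1, ?_⟩
        have := hx.2.2.2
        simpa using this
      · refine le_trans (Nat.mul_le_mul_right _ (Finset.card_le_card ?_))
          (card_sub_inv hn hle ht hL)
        intro x hx
        rw [Finset.mem_filter] at hx ⊢
        refine ⟨hx.1, ?_⟩
        have h3 := hx.2.2.2
        simp only [Function.update_self] at h3
        show sub x t' L = FreeGroup.invRev (sub x t L)
        rw [h3, FreeGroup.invRev_invRev]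
    · refine le_trans (Nat.mul_le_mul_right _ (Finset.card_le_card ?_))
        (card_sub_word hn ht (FreeGroup.invRev (sub (W e') t' L)))
      intro x hx
      rw [Finset.mem_filter] at hx ⊢
      refine ⟨hx.1, ?_⟩
      have := hx.2.2.2
      simpa [Function.update_of_ne (Ne.symm hee)] using this
  · have : ((RW n l).filter fun x => RPtwo_B2 l L ((e, e'), t, t') (Function.update W e x)) = ∅ := by
      apply Finset.filter_eq_empty_iff.mpr
      intro x _ hx
      exact h1 ⟨hx.1, hx.2.1⟩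
    rw [this]
    simp

theorem card_not_P2 {n m l L : ℕ} (hn : 1 ≤ n) (hL : 1 ≤ L) :
    (((Fintype.piFinset fun _ : Fin m => RW n l).filter fun W => ¬ P2 L W).card : ℝ) ≤
      (2 * ((m : ℝ) * l) ^ 2 / ((2 * n - 1 : ℕ) : ℝ) ^ L) *
        (Fintype.piFinset fun _ : Fin m => RW n l).card := by
  set Ω := Fintype.piFinset fun _ : Fin m => RW n l with hΩ
  have hsub : (Ω.filter fun W => ¬ P2 L W) ⊆
      (Finset.univ : Finset ((Fin m × Fin m) × (Fin l × Fin l))).biUnion
        fun q => (Ω.filter (RPtwo_B1 l L q)) ∪ (Ω.filter (RPtwo_B2 l L q)) := by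
    intro W hW
    rw [Finset.mem_filter] at hW
    obtain ⟨hWΩ, hP⟩ := hW
    have hlen : ∀ e, (W e).length = l := by
      intro e
      rw [hΩ, Fintype.mem_piFinset] at hWΩ
      exact (mem_RW.mp (hWΩ e)).1
    rw [Finset.mem_biUnion]
    unfold P2 at hP
    rw [not_and_or] at hP
    rcases hP with hP | hP
    · push Not at hP
      obtain ⟨e, e', t, t', ht, ht', heq, hne⟩ := hP
      rw [hlen] at ht ht'
      refine ⟨((e, e'), (⟨t, by omega⟩, ⟨t', by omega⟩)), Finset.mem_univ _, ?_⟩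
      refine Finset.mem_union_left _ (Finset.mem_filter.mpr ⟨hWΩ, ht, ht', ?_, heq⟩)
      rintro ⟨h1, h2⟩
      exact hne h1 (congrArg Fin.val h2)
    · push Not at hP
      obtain ⟨e, e', t, t', ht, ht', heq⟩ := hP
      rw [hlen] at ht ht'
      refine ⟨((e, e'), (⟨t, by omega⟩, ⟨t', by omega⟩)), Finset.mem_univ _, ?_⟩
      exact Finset.mem_union_right _ (Finset.mem_filter.mpr ⟨hWΩ, ht, ht', heq⟩)
  have hcard : ((Ω.filter fun W => ¬ P2 L W).card : ℝ) ≤
      ∑ q : (Fin m × Fin m) × (Fin l × Fin l),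
        (((Ω.filter (RPtwo_B1 l L q)).card : ℝ) + ((Ω.filter (RPtwo_B2 l L q)).card : ℝ)) := by
    have h1 := (Finset.card_le_card hsub).trans Finset.card_biUnion_le
    have h2 : ((Ω.filter fun W => ¬ P2 L W).card : ℝ) ≤
        ∑ q : (Fin m × Fin m) × (Fin l × Fin l),
          (((Ω.filter (RPtwo_B1 l L q)) ∪ (Ω.filter (RPtwo_B2 l L q))).card : ℝ) := by
      exact_mod_cast h1
    refine h2.trans (Finset.sum_le_sum fun q _ => ?_)
    exact_mod_cast Finset.card_union_le _ _
  refine hcard.trans ?_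
  have hle : ∀ q ∈ (Finset.univ : Finset ((Fin m × Fin m) × (Fin l × Fin l))),
      (((Ω.filter (RPtwo_B1 l L q)).card : ℝ) + ((Ω.filter (RPtwo_B2 l L q)).card : ℝ)) ≤
        2 * ((1 / ((2 * n - 1 : ℕ) : ℝ) ^ L) * Ω.card) := by
    intro q _
    have h1 := RPtwo_card_B1 (n := n) (m := m) (l := l) (L := L) hn q
    have h2 := RPtwo_card_B2 (n := n) (m := m) (l := l) (L := L) hn hL q
    linarith
  refine (Finset.sum_le_sum hle).trans (le_of_eq ?_)
  rw [Finset.sum_const, nsmul_eq_mul, Finset.card_univ]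
  simp only [Fintype.card_prod, Fintype.card_fin, Nat.cast_mul]
  ring

end Pool.Agent.RIB
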