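import Pool.Agent.Lib.RIB.DTop
import Pool.Agent.Lib.RIB.RPtwo
import Pool.Agent.Lib.RIB.RPone
import Pool.Agent.Lib.RIB.RNum
import Pool.Agent.Lib.RIB.RCut
import Pool.Agent.Lib.RIB.RGrp

/-!
# RMain : the theorem for lists

(module of Lib/RIB, problem MP_cf50d6_gt)
-/

set_option autoImplicit false

open scoped Classical

namespace Pool.Agent.RIB

open Pool.Agent.LIA

/-- (P1) with margins `L`, `2 L` and (P2) suffice -/
theorem li_of_P {n m : ℕ} (hn : 2 ≤ n) (hm : m + 1 ≤ n) (i j : Fin m → Fin n) {K L : ℕ}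
    (hK : 3 ≤ K) (hL : 1 ≤ L) (h1 : 3 * L ≤ (2 * n - 1) ^ (K - 2))
    (h2 : 4 * (K + L) ≤ (2 * n - 1) ^ (K - 1))
    (W : Fin m → List (Lt n)) (hr : ∀ e, FreeGroup.IsReduced (W e))
    (p1 : P1 K L (2 * L) W) (p2 : P2 L W) :
    LocallyIndicable (Grp i j fun e => FreeGroup.mk (W e)) := by
  choose a b s s' W' hW hr' hh ht using fun e => exists_cut (i e) (j e) (hr e)
  obtain ⟨q1, q2⟩ := cut_P hL i j W W' a b s s' hW p1 p2
  refine li_strip i j W W' a b s s' hW ?_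
  exact detD hn hm i j hK hL h1 h2 W' hr' q1 q2 fun e => ⟨hh e, ht e⟩

theorem main_list (ε : ℝ) (hε : 0 < ε) : ∃ l₀ : ℕ, ∀ l ≥ l₀, ∀ n m : ℕ, 2 ≤ n → m + 1 ≤ n →
    n ^ 6 ≤ l → ∀ i j : Fin m → Fin n,
      (((Fintype.piFinset fun _ : Fin m => RW n l).filter fun W =>
        ¬ LocallyIndicable (Grp i j fun e => FreeGroup.mk (W e))).card : ℝ) ≤
        ε * (Fintype.piFinset fun _ : Fin m => RW n l).card := by
  obtain ⟨l₀, h0⟩ := exists_numbers ε hε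
  refine ⟨l₀, fun l hl n m hn hmn hnl i j => ?_⟩
  obtain ⟨n', rfl⟩ : ∃ n', n = n' + 1 := ⟨n - 1, by omega⟩
  have hn' : 1 ≤ n' := by omega
  have hmn' : m ≤ n' := by omega
  have hnl' : n' ^ 6 ≤ l := (Nat.pow_le_pow_left (Nat.le_succ n') 6).trans hnl
  obtain ⟨K, L, B, hK, hL, h1, h2, hB, e2, e1⟩ := h0 l hl n' hn' hnl'
  have hq : 2 * (n' + 1) - 1 = 2 * n' + 1 := by omega
  have c2 := card_not_P2 (n := n' + 1) (m := m) (l := l) (L := L) (by omega) hL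
  have c1 := card_not_P1 (n := n' + 1) (m := m) (l := l) (K := K) (a := L) (b := 2 * L) (B := B)
    hn (by omega) hB
  rw [hq] at c1 c2
  set T := Fintype.piFinset fun _ : Fin m => RW (n' + 1) l with hT
  have hT0 : (0 : ℝ) ≤ (T.card : ℝ) := Nat.cast_nonneg _
  have hmR : (m : ℝ) ≤ (n' : ℝ) := by exact_mod_cast hmn'
  have hm0 : (0 : ℝ) ≤ (m : ℝ) := Nat.cast_nonneg _
  have hq0 : (1 : ℝ) ≤ ((2 * n' + 1 : ℕ) : ℝ) := by exact_mod_cast (by omega : 1 ≤ 2 * n' + 1)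
  have hqL : (0 : ℝ) < ((2 * n' + 1 : ℕ) : ℝ) ^ L := by positivity
  have hqK : (1 : ℝ) ≤ ((2 * n' + 1 : ℕ) : ℝ) ^ (K + 1) := one_le_pow₀ hq0
  have hbase : (0 : ℝ) ≤ (1 - 1 / ((2 * n' + 1 : ℕ) : ℝ) ^ (K + 1)) ^ B := by
    apply pow_nonneg
    rw [sub_nonneg, div_le_one (lt_of_lt_of_le one_pos hqK)]
    exact hqK
  have e2' : 2 * ((m : ℝ) * l) ^ 2 / ((2 * n' + 1 : ℕ) : ℝ) ^ L ≤ ε / 2 := by
    refine le_trans ?_ e2
    rw [div_le_div_iff_of_pos_right hqL]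
    have h3 : (m : ℝ) * l ≤ (n' : ℝ) * l := mul_le_mul_of_nonneg_right hmR (Nat.cast_nonneg _)
    have h4 : ((m : ℝ) * l) ^ 2 ≤ ((n' : ℝ) * l) ^ 2 :=
      pow_le_pow_left₀ (by positivity) h3 2
    linarith
  have e1' : (m : ℝ) * ((2 * (n' + 1) * (2 * n' + 1) ^ (K - 1) : ℕ) : ℝ) *
      (1 - 1 / ((2 * n' + 1 : ℕ) : ℝ) ^ (K + 1)) ^ B ≤ ε / 2 := by
    refine le_trans ?_ e1
    refine mul_le_mul_of_nonneg_right ?_ hbase
    exact mul_le_mul_of_nonneg_right hmR (Nat.cast_nonneg _)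
  have hsub : (T.filter fun W => ¬ LocallyIndicable (Grp i j fun e => FreeGroup.mk (W e))) ⊆
      (T.filter fun W => ¬ P2 L W) ∪ T.filter fun W => ¬ P1 K L (2 * L) W := by
    intro W hW
    rw [Finset.mem_filter] at hW
    rw [Finset.mem_union, Finset.mem_filter, Finset.mem_filter]
    by_contra hno
    push Not at hno
    have hr : ∀ e, FreeGroup.IsReduced (W e) := by
      intro e
      have := hW.1
      rw [hT, Fintype.mem_piFinset] at this
      exact (mem_RW.1 (this e)).2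
    exact hW.2 (li_of_P hn hmn i j hK hL (by rw [hq]; exact h1) (by rw [hq]; exact h2) W hr
      (hno.2 hW.1) (hno.1 hW.1))
  have h3 : ((T.filter fun W => ¬ LocallyIndicable (Grp i j fun e => FreeGroup.mk (W e))).card : ℝ) ≤
      ((T.filter fun W => ¬ P2 L W).card : ℝ) +
        ((T.filter fun W => ¬ P1 K L (2 * L) W).card : ℝ) := by
    exact_mod_cast (Finset.card_le_card hsub).trans (Finset.card_union_le _ _)
  nlinarith [mul_le_mul_of_nonneg_right e2' hT0, mul_le_mul_of_nonneg_right e1' hT0]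

end Pool.Agent.RIB
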