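import Pool.Agent.Lib.RIB.RCard

/-!
# RMom : exponential moments over disjoint blocks of two letters of reduced words

(module of Lib/RIB, problem MP_cf50d6_gt; helper74)
-/

set_option autoImplicit false

open scoped Classical

namespace Pool.Agent.RIB

variable {n l : ℕ}

/-- sums over the reduced words of length `l + 1` : first letter and rest -/
theorem sum_RW_succ {A : Type*} [AddCommMonoid A] (F : List (Lt n) → A) :
    ∑ w ∈ RW n (l + 1), F w =
      ∑ v ∈ RW n l, ∑ a ∈ Finset.univ.filter (fun a : Lt n => FreeGroup.IsReduced (a :: v)),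
        F (a :: v) := by
  rw [← Finset.sum_fiberwise_of_maps_to (s := RW n (l + 1)) (t := RW n l) (g := List.tail)]
  · refine Finset.sum_congr rfl fun v hv => ?_
    symm
    refine Finset.sum_bij (fun (a : Lt n) _ => a :: v) ?_ ?_ ?_ ?_
    · intro a ha
      exact Finset.mem_filter.2 ⟨cons_mem_RW.2 ⟨hv, (Finset.mem_filter.1 ha).2⟩, rfl⟩
    · intro a _ b _ h
      exact (List.cons.inj h).1
    · intro w hw
      obtain ⟨hw1, hw2⟩ := Finset.mem_filter.1 hw
      cases w with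
      | nil =>
        have := (mem_RW.1 hw1).1
        simp at this
      | cons a u =>
        obtain rfl : u = v := hw2
        exact ⟨a, Finset.mem_filter.2 ⟨Finset.mem_univ _, (cons_mem_RW.1 hw1).2⟩, rfl⟩
    · intro a _
      rfl
  · intro w hw
    cases w with
    | nil =>
      have := (mem_RW.1 hw).1
      simp at this
    | cons a u => exact (cons_mem_RW.1 hw).1

/-- the letters which can stand before the letter `c` in a reduced word -/
noncomputable def bef (c : Lt n) : Finset (Lt n) :=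
  Finset.univ.filter fun a : Lt n => FreeGroup.IsReduced [a, c]

theorem isReduced_cons_iff {a c : Lt n} {v : List (Lt n)} (hv : FreeGroup.IsReduced (c :: v)) :
    FreeGroup.IsReduced (a :: c :: v) ↔ FreeGroup.IsReduced [a, c] := by
  rw [FreeGroup.isReduced_cons_cons, FreeGroup.isReduced_cons_cons]
  constructor
  · exact fun h => ⟨h.1, FreeGroup.IsReduced.singleton⟩
  · exact fun h => ⟨h.1, hv⟩

theorem card_bef (c : Lt n) : (bef c).card = 2 * n - 1 :=
  card_letters (List.cons_ne_nil _ _) FreeGroup.IsReduced.singleton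

theorem sum_RW_succ' {A : Type*} [AddCommMonoid A] (hl : 1 ≤ l) (F : List (Lt n) → A)
    (d : Lt n) :
    ∑ w ∈ RW n (l + 1), F w = ∑ v ∈ RW n l, ∑ a ∈ bef (v.getD 0 d), F (a :: v) := by
  rw [sum_RW_succ]
  refine Finset.sum_congr rfl fun v hv => ?_
  cases v with
  | nil =>
    have := (mem_RW.1 hv).1
    simp at this
    omega
  | cons c v =>
    refine Finset.sum_congr ?_ fun _ _ => rfl
    unfold bef
    refine Finset.filter_congr fun a _ => ?_
    rw [List.getD_cons_zero]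
    exact isReduced_cons_iff (mem_RW.1 hv).2

/-- a prefix of length `a` gives the factor `(2 n - 1) ^ a` -/
theorem sum_drop (a : ℕ) (hl : 1 ≤ l) (F : List (Lt n) → ℝ) :
    ∑ w ∈ RW n (l + a), F (w.drop a) = ((2 * n - 1 : ℕ) : ℝ) ^ a * ∑ s ∈ RW n l, F s := by
  induction a with
  | zero => simp
  | succ a ih =>
    rw [← Nat.add_assoc, sum_RW_succ]
    have h1 : ∀ v ∈ RW n (l + a), ∑ x ∈ Finset.univ.filter
        (fun x : Lt n => FreeGroup.IsReduced (x :: v)), F ((x :: v).drop (a + 1)) =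
          ((2 * n - 1 : ℕ) : ℝ) * F (v.drop a) := by
      intro v hv
      obtain ⟨hv1, hv2⟩ := mem_RW.1 hv
      have hne : v ≠ [] := by
        rintro rfl
        simp at hv1
        omega
      rw [Finset.sum_congr rfl (g := fun _ => F (v.drop a)) fun x _ => by rw [List.drop_succ_cons],
        Finset.sum_const, card_letters hne hv2, nsmul_eq_mul]
    rw [Finset.sum_congr rfl h1, ← Finset.mul_sum, ih, pow_succ]
    ring

theorem moment_aux (φ : Lt n → Lt n → ℝ) (hφ : ∀ a b, 0 ≤ φ a b) (β : ℝ) (d : Lt n)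
    (hβ : ∀ c : Lt n, ∑ b ∈ bef c, ∑ a ∈ bef b, φ a b ≤ β * ((2 * n - 1 : ℕ) : ℝ) ^ 2)
    (hl : 1 ≤ l) (N : ℕ) :
    ∑ w ∈ RW n (l + 2 * N), ∏ i ∈ Finset.range N, φ (w.getD (2 * i) d) (w.getD (2 * i + 1) d) ≤
      (β * ((2 * n - 1 : ℕ) : ℝ) ^ 2) ^ N * (RW n l).card := by
  induction N with
  | zero => simp
  | succ N ih =>
    have e1 : l + 2 * (N + 1) = (l + 2 * N + 1) + 1 := by ring
    rw [e1, sum_RW_succ' (by omega) _ d, sum_RW_succ' (by omega) _ d]
    have h0 : 0 ≤ β * ((2 * n - 1 : ℕ) : ℝ) ^ 2 := le_trans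
      (Finset.sum_nonneg fun b _ => Finset.sum_nonneg fun a _ => hφ a b) (hβ d)
    calc ∑ v ∈ RW n (l + 2 * N), ∑ b ∈ bef (v.getD 0 d), ∑ a ∈ bef ((b :: v).getD 0 d),
          ∏ i ∈ Finset.range (N + 1), φ ((a :: b :: v).getD (2 * i) d)
            ((a :: b :: v).getD (2 * i + 1) d)
        = ∑ v ∈ RW n (l + 2 * N), (∑ b ∈ bef (v.getD 0 d), ∑ a ∈ bef b, φ a b) *
            ∏ i ∈ Finset.range N, φ (v.getD (2 * i) d) (v.getD (2 * i + 1) d) := by
          refine Finset.sum_congr rfl fun v _ => ?_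
          rw [Finset.sum_mul]
          refine Finset.sum_congr rfl fun b _ => ?_
          rw [List.getD_cons_zero, Finset.sum_mul]
          refine Finset.sum_congr rfl fun a _ => ?_
          rw [Finset.prod_range_succ', mul_comm]
          congr 1
      _ ≤ ∑ v ∈ RW n (l + 2 * N), (β * ((2 * n - 1 : ℕ) : ℝ) ^ 2) *
            ∏ i ∈ Finset.range N, φ (v.getD (2 * i) d) (v.getD (2 * i + 1) d) := by
          refine Finset.sum_le_sum fun v _ => ?_
          exact mul_le_mul_of_nonneg_right (hβ _) (Finset.prod_nonneg fun i _ => hφ _ _)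
      _ ≤ _ := by
          rw [← Finset.mul_sum, pow_succ]
          calc β * ((2 * n - 1 : ℕ) : ℝ) ^ 2 * _
              ≤ β * ((2 * n - 1 : ℕ) : ℝ) ^ 2 *
                ((β * ((2 * n - 1 : ℕ) : ℝ) ^ 2) ^ N * (RW n l).card) :=
                mul_le_mul_of_nonneg_left ih h0
            _ = _ := by ring

/-- EXPONENTIAL MOMENT: the blocks are the pairs of positions `a + 2 i, a + 2 i + 1`, `i < N`, in words of length
`l ≥ a + 2 N + 1` -/
theorem moment (φ : Lt n → Lt n → ℝ) (hφ : ∀ a b, 0 ≤ φ a b) (β : ℝ) (d : Lt n)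
    (hβ : ∀ c : Lt n, ∑ b ∈ bef c, ∑ a ∈ bef b, φ a b ≤ β * ((2 * n - 1 : ℕ) : ℝ) ^ 2)
    {a N : ℕ} (hl : a + 2 * N + 1 ≤ l) :
    ∑ w ∈ RW n l, ∏ i ∈ Finset.range N, φ (w.getD (a + 2 * i) d) (w.getD (a + 2 * i + 1) d) ≤
      β ^ N * (RW n l).card := by
  obtain ⟨k, hk1, rfl⟩ : ∃ k, 1 ≤ k ∧ l = k + 2 * N + a := ⟨l - 2 * N - a, by omega, by omega⟩
  have h1 : ∑ w ∈ RW n (k + 2 * N + a), ∏ i ∈ Finset.range N,
      φ (w.getD (a + 2 * i) d) (w.getD (a + 2 * i + 1) d) =
      ∑ w ∈ RW n (k + 2 * N + a), (fun s : List (Lt n) => ∏ i ∈ Finset.range N,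
        φ (s.getD (2 * i) d) (s.getD (2 * i + 1) d)) (w.drop a) := by
    refine Finset.sum_congr rfl fun w _ => ?_
    refine Finset.prod_congr rfl fun i _ => ?_
    have h2 : ∀ j, (w.drop a).getD j d = w.getD (a + j) d := by
      intro j
      rw [List.getD_eq_getElem?_getD, List.getD_eq_getElem?_getD, List.getElem?_drop]
    rw [h2, h2, Nat.add_assoc]
  rw [h1, sum_drop a (by omega) fun s : List (Lt n) => ∏ i ∈ Finset.range N,
    φ (s.getD (2 * i) d) (s.getD (2 * i + 1) d)]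
  have h2 : ((RW n (k + 2 * N + a)).card : ℝ) =
      ((2 * n - 1 : ℕ) : ℝ) ^ a * (((2 * n - 1 : ℕ) : ℝ) ^ (2 * N) * (RW n k).card) := by
    have h3 := sum_drop (n := n) (l := k + 2 * N) a (by omega) fun _ => 1
    have h4 := sum_drop (n := n) (l := k) (2 * N) hk1 fun _ => 1
    simp only [Finset.sum_const, nsmul_eq_mul, mul_one] at h3 h4
    rw [h3, h4]
  rw [h2]
  calc _ ≤ ((2 * n - 1 : ℕ) : ℝ) ^ a *
        ((β * ((2 * n - 1 : ℕ) : ℝ) ^ 2) ^ N * (RW n k).card) :=
        mul_le_mul_of_nonneg_left (moment_aux φ hφ β d hβ hk1 N) (by positivity)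
    _ = _ := by
        rw [mul_pow, ← pow_mul]
        ring

end Pool.Agent.RIB
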