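import Pool.Agent.Lib.RIB.RDet

/-!
# RSub : two occurrences in one word, one occurrence of a given word

(module of Lib/RIB, problem MP_cf50d6_gt)
All three from `card_ok` with `c = l - t - L` (the positions `t, ..., t + L - 1`; the letter at
the position `k` is followed by `s` with `s.length = l - 1 - k`), by inclusion of the
filtered sets.
-/

set_option autoImplicit false

open scoped Classical

namespace Pool.Agent.RIB

variable {n l t t' L : ℕ}

theorem RSub_getElem?_sub (w : List (Lt n)) (t L i : ℕ) (hi : i < L) :
    (sub w t L)[i]? = w[t + i]? := by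
  unfold sub
  rw [List.getElem?_take, if_pos hi, List.getElem?_drop]

theorem RSub_length_sub {w : List (Lt n)} {t L : ℕ} (h : t + L ≤ w.length) :
    (sub w t L).length = L := by
  unfold sub
  rw [List.length_take, List.length_drop]
  omega

theorem RSub_getElem?_inv {w : List (Lt n)} {t L i : ℕ} (h : t + L ≤ w.length) (hi : i < L) :
    (FreeGroup.invRev (sub w t L))[i]? =
      (w[t + (L - 1 - i)]?).map fun g : Lt n => (g.1, !g.2) := by
  unfold FreeGroup.invRev
  rw [List.getElem?_reverse (by rw [List.length_map, RSub_length_sub h]; exact hi),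
    List.length_map, RSub_length_sub h, List.getElem?_map, RSub_getElem?_sub _ _ _ _ (by omega)]

/-- the general step -/
theorem RSub_le (hn : 1 ≤ n) (h : t + L ≤ l) (P : List (Lt n) → Prop) [DecidablePred P] (f : List (Lt n) → Lt n)
    (hf : ∀ w ∈ RW n l, P w → ∀ p a s, w = p ++ a :: s → t ≤ p.length → p.length < t + L →
      s.length + 1 + p.length = l → a = f s) :
    ((RW n l).filter P).card * (2 * n - 1) ^ L ≤ (RW n l).card := by
  refine le_trans (Nat.mul_le_mul_right _ (Finset.card_le_card ?_))
    (card_ok (c := l - t - L) (L := L) hn (by omega) f)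
  intro w hw
  rw [Finset.mem_filter] at hw ⊢
  refine ⟨hw.1, ?_⟩
  intro p a s hp h1 h2
  have hlen : w.length = l := (mem_RW.1 hw.1).1
  rw [hp, List.length_append, List.length_cons] at hlen
  exact hf w hw.1 hw.2 p a s hp (by omega) (by omega) (by omega)

theorem card_sub_word (hn : 1 ≤ n) (h : t + L ≤ l) (v : List (Lt n)) :
    ((RW n l).filter fun w => sub w t L = v).card * (2 * n - 1) ^ L ≤ (RW n l).card := by
  refine RSub_le (l := l) hn h (fun w => sub w t L = v) (fun s => (v[l - 1 - s.length - t]?).getD (⟨0, hn⟩, true)) ?_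
  intro w _ hv p a s hp h1 h2 h3
  have e1 : l - 1 - s.length - t = p.length - t := by omega
  have e2 : v[p.length - t]? = some a := by
    rw [← hv, RSub_getElem?_sub _ _ _ _ (by omega), Nat.add_sub_cancel' h1, hp]
    simp
  show a = (v[l - 1 - s.length - t]?).getD (⟨0, hn⟩, true)
  rw [e1, e2]
  rfl

theorem card_sub_sub (hn : 1 ≤ n) (ht : t < t') (h : t' + L ≤ l) :
    ((RW n l).filter fun w => sub w t L = sub w t' L).card * (2 * n - 1) ^ L ≤ (RW n l).card := by
  refine RSub_le (l := l) (t := t) (L := L) hn (by omega) (fun w => sub w t L = sub w t' L) (fun s => (s[t' - t - 1]?).getD (⟨0, hn⟩, true)) ?_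
  intro w _ hv p a s hp h1 h2 h3
  have e0 : (sub w t L)[p.length - t]? = (sub w t' L)[p.length - t]? := by rw [hv]
  rw [RSub_getElem?_sub _ _ _ _ (by omega), RSub_getElem?_sub _ _ _ _ (by omega),
    Nat.add_sub_cancel' h1] at e0
  have e1 : w[p.length]? = some a := by rw [hp]; simp
  have e2 : w[t' + (p.length - t)]? = s[t' - t - 1]? := by
    rw [hp, List.getElem?_append_right (by omega)]
    have : t' + (p.length - t) - p.length = (t' - t - 1) + 1 := by omega
    rw [this, List.getElem?_cons_succ]
  rw [e1, e2] at e0
  show a = (s[t' - t - 1]?).getD (⟨0, hn⟩, true)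
  rw [← e0]
  rfl

theorem card_sub_inv (hn : 1 ≤ n) (ht : t ≤ t') (h : t' + L ≤ l) (hL : 1 ≤ L) :
    ((RW n l).filter fun w => sub w t L = FreeGroup.invRev (sub w t' L)).card * (2 * n - 1) ^ L ≤
      (RW n l).card := by
  have key : ∀ w ∈ RW n l, sub w t L = FreeGroup.invRev (sub w t' L) → ∀ k, t ≤ k → k < t + L →
      w[k]? = (w[t + t' + L - 1 - k]?).map fun g : Lt n => (g.1, !g.2) := by
    intro w hw hv k h1 h2
    have hlen : w.length = l := (mem_RW.1 hw).1
    have e0 : (sub w t L)[k - t]? = (FreeGroup.invRev (sub w t' L))[k - t]? := by rw [← hv]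
    rw [RSub_getElem?_sub _ _ _ _ (by omega), RSub_getElem?_inv (by omega) (by omega),
      Nat.add_sub_cancel' h1] at e0
    have e1 : t' + (L - 1 - (k - t)) = t + t' + L - 1 - k := by omega
    rw [e0, e1]
  by_cases hc : t + L ≤ t'
  · refine RSub_le (l := l) (t := t) (L := L) hn (by omega)
      (fun w => sub w t L = FreeGroup.invRev (sub w t' L)) (fun s =>
      ((s[t + t' + L - 2 - 2 * (l - 1 - s.length)]?).map
        fun g : Lt n => (g.1, !g.2)).getD (⟨0, hn⟩, true)) ?_
    intro w hw hv p a s hp h1 h2 h3
    have e0 := key w hw hv p.length h1 h2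
    have e1 : w[p.length]? = some a := by rw [hp]; simp
    have e2 : w[t + t' + L - 1 - p.length]? = s[t + t' + L - 2 - 2 * (l - 1 - s.length)]? := by
      rw [hp, List.getElem?_append_right (by omega)]
      have : t + t' + L - 1 - p.length - p.length =
          (t + t' + L - 2 - 2 * (l - 1 - s.length)) + 1 := by omega
      rw [this, List.getElem?_cons_succ]
    rw [e1, e2] at e0
    show a = ((s[t + t' + L - 2 - 2 * (l - 1 - s.length)]?).map
        fun g : Lt n => (g.1, !g.2)).getD (⟨0, hn⟩, true)
    rw [← e0]
    rfl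
  · have hempty : ((RW n l).filter fun w => sub w t L = FreeGroup.invRev (sub w t' L)) = ∅ := by
      rw [Finset.filter_eq_empty_iff]
      intro w hw hv
      have hlen : w.length = l := (mem_RW.1 hw).1
      have hred := (mem_RW.1 hw).2
      have e0 := key w hw hv ((t + t' + L - 1) / 2) (by omega) (by omega)
      have hk : (t + t' + L - 1) / 2 < w.length := by omega
      have hk' : t + t' + L - 1 - (t + t' + L - 1) / 2 < w.length := by omega
      rw [List.getElem?_eq_getElem hk, List.getElem?_eq_getElem hk', Option.map_some,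
        Option.some_inj] at e0
      rcases Nat.even_or_odd (t + t' + L - 1) with hN | hN
      · have e1 : t + t' + L - 1 - (t + t' + L - 1) / 2 = (t + t' + L - 1) / 2 := by
          obtain ⟨r, hr⟩ := hN; omega
        simp only [e1] at e0
        have := congrArg Prod.snd e0
        simp at this
      · have e1 : t + t' + L - 1 - (t + t' + L - 1) / 2 = (t + t' + L - 1) / 2 + 1 := by
          obtain ⟨r, hr⟩ := hN; omega
        simp only [e1] at e0 hk'
        have h3 := (List.isChain_iff_getElem.1 hred) ((t + t' + L - 1) / 2) hk'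
        rw [e0] at h3
        have := h3 rfl
        simp at this
    rw [hempty, Finset.card_empty, Nat.zero_mul]
    exact Nat.zero_le _

end Pool.Agent.RIB
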