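import Pool.Agent.Lib.RIB.RMom

/-!
# RTail : tails of the number of blocks of two letters in a set, for tuples of reduced words

(module of Lib/RIB, problem MP_cf50d6_gt; helper74)
-/

set_option autoImplicit false

open scoped Classical

namespace Pool.Agent.RIB

variable {n m l : ℕ}

/-- the number of the blocks `(W e)[a + 2 i], (W e)[a + 2 i + 1]`, `i < N`, with the property `A` -/
noncomputable def cnt (d : Lt n) (A : Lt n → Lt n → Prop) (a N : ℕ) (W : Fin m → List (Lt n)) : ℕ :=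
  ∑ e, ((Finset.range N).filter fun i =>
    A ((W e).getD (a + 2 * i) d) ((W e).getD (a + 2 * i + 1) d)).card

theorem prod_ite_pow {ι : Type*} (s : Finset ι) (P : ι → Prop) (θ : ℝ) :
    ∏ i ∈ s, (if P i then θ else 1) = θ ^ (s.filter P).card := by
  rw [Finset.prod_ite, Finset.prod_const, Finset.prod_const_one, mul_one]

/-- the exponential moment of `cnt` -/
theorem moment_cnt (d : Lt n) (A : Lt n → Lt n → Prop) (θ β : ℝ) (hθ : 0 ≤ θ)
    (hβ : ∀ c : Lt n, ∑ b ∈ bef c, ∑ a ∈ bef b, (if A a b then θ else 1) ≤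
      β * ((2 * n - 1 : ℕ) : ℝ) ^ 2) {a N : ℕ} (hl : a + 2 * N + 1 ≤ l) :
    ∑ W ∈ Fintype.piFinset fun _ : Fin m => RW n l, θ ^ cnt d A a N W ≤
      β ^ (N * m) * (Fintype.piFinset fun _ : Fin m => RW n l).card := by
  have h0 : ∀ a b, (0 : ℝ) ≤ (if A a b then θ else 1) := by
    intro a b
    split_ifs
    · exact hθ
    · exact zero_le_one
  have h1 : ∀ W : Fin m → List (Lt n), θ ^ cnt d A a N W =
      ∏ e, ∏ i ∈ Finset.range N,
        (if A ((W e).getD (a + 2 * i) d) ((W e).getD (a + 2 * i + 1) d) then θ else 1) := by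
    intro W
    unfold cnt
    rw [Finset.prod_congr rfl fun e _ => prod_ite_pow _ _ θ, Finset.prod_pow_eq_pow_sum]
  simp only [h1]
  have h2 := Finset.prod_univ_sum (fun _ : Fin m => RW n l) fun (_ : Fin m) (w : List (Lt n)) =>
    ∏ i ∈ Finset.range N,
      (if A (w.getD (a + 2 * i) d) (w.getD (a + 2 * i + 1) d) then θ else 1)
  rw [← h2, Finset.prod_const, Finset.card_univ, Fintype.card_fin, Fintype.card_piFinset_const,
    Nat.cast_pow, pow_mul, ← mul_pow]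
  refine pow_le_pow_left₀ ?_ (moment _ h0 β d hβ hl) m
  exact Finset.sum_nonneg fun w _ => Finset.prod_nonneg fun i _ => h0 _ _

theorem tail_ge (d : Lt n) (A : Lt n → Lt n → Prop) (θ β : ℝ) (hθ : 1 ≤ θ)
    (hβ : ∀ c : Lt n, ∑ b ∈ bef c, ∑ a ∈ bef b, (if A a b then θ else 1) ≤
      β * ((2 * n - 1 : ℕ) : ℝ) ^ 2) {a N : ℕ} (hl : a + 2 * N + 1 ≤ l) (x : ℕ) :
    (((Fintype.piFinset fun _ : Fin m => RW n l).filter fun W => x ≤ cnt d A a N W).card : ℝ) *
      θ ^ x ≤ β ^ (N * m) * (Fintype.piFinset fun _ : Fin m => RW n l).card := by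
  refine le_trans ?_ (moment_cnt d A θ β (by linarith) hβ hl)
  have h0 : (0 : ℝ) ≤ θ := by linarith
  calc (((Fintype.piFinset fun _ : Fin m => RW n l).filter fun W => x ≤ cnt d A a N W).card : ℝ) *
      θ ^ x = ∑ W ∈ (Fintype.piFinset fun _ : Fin m => RW n l).filter
        (fun W => x ≤ cnt d A a N W), θ ^ x := by
        rw [Finset.sum_const, nsmul_eq_mul]
    _ ≤ ∑ W ∈ (Fintype.piFinset fun _ : Fin m => RW n l).filter
        (fun W => x ≤ cnt d A a N W), θ ^ cnt d A a N W := by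
        refine Finset.sum_le_sum fun W hW => ?_
        exact pow_le_pow_right₀ hθ (Finset.mem_filter.1 hW).2
    _ ≤ _ := Finset.sum_le_sum_of_subset_of_nonneg (Finset.filter_subset _ _)
        fun W _ _ => pow_nonneg h0 _

theorem tail_le (d : Lt n) (A : Lt n → Lt n → Prop) (θ β : ℝ) (hθ : 0 < θ) (hθ1 : θ ≤ 1)
    (hβ : ∀ c : Lt n, ∑ b ∈ bef c, ∑ a ∈ bef b, (if A a b then θ else 1) ≤
      β * ((2 * n - 1 : ℕ) : ℝ) ^ 2) {a N : ℕ} (hl : a + 2 * N + 1 ≤ l) (x : ℕ) :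
    (((Fintype.piFinset fun _ : Fin m => RW n l).filter fun W => cnt d A a N W ≤ x).card : ℝ) *
      θ ^ x ≤ β ^ (N * m) * (Fintype.piFinset fun _ : Fin m => RW n l).card := by
  refine le_trans ?_ (moment_cnt d A θ β hθ.le hβ hl)
  calc (((Fintype.piFinset fun _ : Fin m => RW n l).filter fun W => cnt d A a N W ≤ x).card : ℝ) *
      θ ^ x = ∑ W ∈ (Fintype.piFinset fun _ : Fin m => RW n l).filter
        (fun W => cnt d A a N W ≤ x), θ ^ x := by
        rw [Finset.sum_const, nsmul_eq_mul]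
    _ ≤ ∑ W ∈ (Fintype.piFinset fun _ : Fin m => RW n l).filter
        (fun W => cnt d A a N W ≤ x), θ ^ cnt d A a N W := by
        refine Finset.sum_le_sum fun W hW => ?_
        exact pow_le_pow_of_le_one hθ.le hθ1 (Finset.mem_filter.1 hW).2
    _ ≤ _ := Finset.sum_le_sum_of_subset_of_nonneg (Finset.filter_subset _ _)
        fun W _ _ => pow_nonneg hθ.le _

/-- the number of the allowed pairs before `c` with the property `A` -/
noncomputable def pairs (A : Lt n → Lt n → Prop) (c : Lt n) : ℕ :=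
  ∑ b ∈ bef c, ((bef b).filter fun a => A a b).card

theorem sum_ite_eq (A : Lt n → Lt n → Prop) (θ : ℝ) (c : Lt n) :
    ∑ b ∈ bef c, ∑ a ∈ bef b, (if A a b then θ else (1 : ℝ)) =
      ((2 * n - 1 : ℕ) : ℝ) ^ 2 + (θ - 1) * pairs A c := by
  have h1 : ∀ b, ∑ a ∈ bef b, (if A a b then θ else (1 : ℝ)) =
      ((2 * n - 1 : ℕ) : ℝ) + (θ - 1) * ((bef b).filter fun a => A a b).card := by
    intro b
    have h2 : ∀ a, (if A a b then θ else (1 : ℝ)) = 1 + (θ - 1) * (if A a b then 1 else 0) := by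
      intro a
      split_ifs <;> ring
    simp only [h2]
    rw [Finset.sum_add_distrib, Finset.sum_const, card_bef, nsmul_eq_mul, mul_one,
      ← Finset.mul_sum, Finset.sum_boole]
  simp only [h1]
  rw [Finset.sum_add_distrib, Finset.sum_const, card_bef, nsmul_eq_mul, ← Finset.mul_sum]
  unfold pairs
  push_cast
  ring

/-- the constant `β` for `θ ≥ 1` -/
theorem beta_ge (A : Lt n → Lt n → Prop) {θ : ℝ} (hθ : 1 ≤ θ) {α : ℝ} (hn : 1 ≤ n)
    (h : ∀ c, (pairs A c : ℝ) ≤ α) (c : Lt n) :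
    ∑ b ∈ bef c, ∑ a ∈ bef b, (if A a b then θ else (1 : ℝ)) ≤
      (1 + (θ - 1) * α / ((2 * n - 1 : ℕ) : ℝ) ^ 2) * ((2 * n - 1 : ℕ) : ℝ) ^ 2 := by
  rw [sum_ite_eq]
  have hq : (0 : ℝ) < ((2 * n - 1 : ℕ) : ℝ) ^ 2 := by
    have : (0 : ℝ) < ((2 * n - 1 : ℕ) : ℝ) := by exact_mod_cast (by omega : 0 < 2 * n - 1)
    positivity
  rw [add_mul, one_mul, div_mul_cancel₀ _ hq.ne']
  have := mul_le_mul_of_nonneg_left (h c) (sub_nonneg.2 hθ)
  linarith

/-- the constant `β` for `θ ≤ 1` -/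
theorem beta_le (A : Lt n → Lt n → Prop) {θ : ℝ} (hθ : θ ≤ 1) {α : ℝ} (hn : 1 ≤ n)
    (h : ∀ c, α ≤ (pairs A c : ℝ)) (c : Lt n) :
    ∑ b ∈ bef c, ∑ a ∈ bef b, (if A a b then θ else (1 : ℝ)) ≤
      (1 + (θ - 1) * α / ((2 * n - 1 : ℕ) : ℝ) ^ 2) * ((2 * n - 1 : ℕ) : ℝ) ^ 2 := by
  rw [sum_ite_eq]
  have hq : (0 : ℝ) < ((2 * n - 1 : ℕ) : ℝ) ^ 2 := by
    have : (0 : ℝ) < ((2 * n - 1 : ℕ) : ℝ) := by exact_mod_cast (by omega : 0 < 2 * n - 1)
    positivity
  rw [add_mul, one_mul, div_mul_cancel₀ _ hq.ne']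
  have := mul_le_mul_of_nonneg_left (h c) (sub_nonneg.2 hθ)
  linarith

end Pool.Agent.RIB
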